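import Pool.Agent.N167.DY.Def

/-! Statements of the parts of project DY (helper167). -/

namespace Pool.Agent.N167.DY

open Set

/-- DY/1 (barrier lemma). -/
def S_barrier : Prop :=
  ∀ (ι : Type) [Finite ι] (T : ℝ) (φ φ' : ι → ℝ → ℝ), 0 ≤ T →
    (∀ i, ∀ t ∈ Icc (0 : ℝ) T, HasDerivWithinAt (φ i) (φ' i t) (Icc 0 T) t) →
    (∀ i, 0 ≤ φ i 0) →
    (∀ i, ∀ t ∈ Ico (0 : ℝ) T, (∀ j, 0 ≤ φ j t) → φ i t = 0 → 0 < φ' i t) →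
    ∀ i, ∀ t ∈ Icc (0 : ℝ) T, 0 ≤ φ i t

/-- DY/2 (existence for the truncated system with clamped field). -/
def S_clamped : Prop :=
  ∀ (β ν : ℝ) (f : ℕ → ℝ → ℝ) (x A : ℕ → ℝ) (N : ℕ) (T : ℝ), 0 < T → (∀ n, 0 ≤ A n) →
    (∀ n, ContinuousOn (f n) (Icc 0 T)) →
    ∃ X : ℕ → ℝ → ℝ, (∀ n, N < n → ∀ t, X n t = 0) ∧ (∀ n, n ≤ N → X n 0 = x n) ∧
      ∀ n, n ≤ N → ∀ t ∈ Icc (0 : ℝ) T,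
        HasDerivWithinAt (X n)
          (rhs β ν (fun m => f m t) (fun m => clamp (A m) (X m t)) n) (Icc 0 T) t

/-- DY/3 (scalar comparison). -/
def S_scalar : Prop :=
  ∀ (T M : ℝ) (y y' : ℝ → ℝ), 0 ≤ T →
    (∀ t ∈ Icc (0 : ℝ) T, HasDerivWithinAt y (y' t) (Icc 0 T) t) →
    y 0 ≤ M → (∀ t ∈ Icc (0 : ℝ) T, M < y t → y' t ≤ 0) →
    ∀ t ∈ Icc (0 : ℝ) T, y t ≤ M

/-- DY/4 (bootstrap: the bounds are rapidly decreasing). -/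
def S_boot : Prop :=
  ∀ (β ν θ : ℝ) (a A x F : ℕ → ℝ) (N₀ : ℕ), 0 < ν → θ < 1 →
    (∀ n, 0 ≤ a n) → (∀ n, a n ≤ A n) → (∀ n, 0 ≤ x n) → (∀ n, 0 ≤ F n) →
    Rapid x → Rapid F →
    (∀ n, a (n + 1) ≤ max (x (n + 1)) ((F (n + 1) + kk β n * a n ^ 2) / (ν * 4 ^ (n + 1)))) →
    (∀ n, N₀ ≤ n → (2 : ℝ) ^ (β - 2) * kk β n * A n ≤ θ * (ν * 4 ^ (n + 1))) →
    Rapid a

/-- DY/5 (comparison of two nonnegative solutions, weight `2^{-n}`). -/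
def S_psi : Prop :=
  ∀ (β ν : ℝ) (f : ℕ → ℝ → ℝ) (N : ℕ) (T η : ℝ) (X Z : ℕ → ℝ → ℝ), 0 ≤ ν → 0 ≤ T →
    SolUpTo β ν f N T X → SolUpTo β ν f N T Z →
    (∀ n, n ≤ N + 1 → ∀ t ∈ Icc (0 : ℝ) T, 0 ≤ X n t ∧ 0 ≤ Z n t) →
    (∀ n, n ≤ N → X n 0 = Z n 0) →
    (∀ t ∈ Icc (0 : ℝ) T,
      (2 : ℝ)⁻¹ ^ N * kk β N * X N t * Z N t * (X (N + 1) t + Z (N + 1) t) ≤ η) →
    ∀ t ∈ Icc (0 : ℝ) T,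
      ∑ n ∈ Finset.range (N + 1), (2 : ℝ)⁻¹ ^ n * (X n t - Z n t) ^ 2 ≤ 2 * η * t

/-- DY/6 (passage to the limit in the truncated solutions). -/
def S_limit : Prop :=
  S_psi → ∀ (β ν : ℝ) (f : ℕ → ℝ → ℝ) (x a : ℕ → ℝ) (N₀ : ℕ) (X : ℕ → ℕ → ℝ → ℝ), 0 < ν →
    Rapid a → (∀ n, ContinuousOn (f n) (Ici 0)) →
    (∀ N, N₀ ≤ N → ∀ n, n ≤ N → X N n 0 = x n) →
    (∀ N, N₀ ≤ N → SolUpTo β ν f N N (X N)) →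
    (∀ N, N₀ ≤ N → ∀ n, N < n → ∀ t ∈ Icc (0 : ℝ) N, X N n t = 0) →
    (∀ N, N₀ ≤ N → ∀ n, ∀ t ∈ Icc (0 : ℝ) N, 0 ≤ X N n t ∧ X N n t ≤ a n) →
    ∃ Y : ℕ → ℝ → ℝ, IsSol β ν f x Y ∧ ∀ n, ∀ t, 0 ≤ t → 0 ≤ Y n t ∧ Y n t ≤ a n

/-- DY/7 (uniqueness among all solutions with nonnegative data). -/
def S_unique : Prop :=
  S_psi → ∀ (β ν : ℝ) (f : ℕ → ℝ → ℝ) (x a F : ℕ → ℝ) (X Z : ℕ → ℝ → ℝ), 0 < ν →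
    (∀ n, 0 ≤ x n) → Rapid x → Rapid F →
    (∀ n, ContinuousOn (f n) (Ici 0)) → (∀ n, ∀ t, 0 ≤ t → 0 ≤ f n t ∧ f n t ≤ F n) →
    Rapid a → IsSol β ν f x X → (∀ n, ∀ t, 0 ≤ t → 0 ≤ X n t ∧ X n t ≤ a n) →
    IsSol β ν f x Z → ∀ n, ∀ t, 0 ≤ t → Z n t = X n t

end Pool.Agent.N167.DY
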