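import Pool.Agent.N167.DY.Reg

/-! Algebra: signs of the derivatives on the boundary of the region. -/

namespace Pool.Agent.N167.DY

theorem alg_T {K R₀ α b q c ε : ℝ} (h : Reg K R₀ α b q c ε) {μ r κ ω v F : ℝ} (hμ : 0 < μ)
    (hr : 0 < r) (hκ : K - ε / 16 * μ ≤ κ) (hω : 0 ≤ ω) (hω1 : ω ≤ 1) (hL : α - b - c * μ ≤ ω)
    (hv : 0 ≤ v) (hv1 : v ≤ 1) (hF : F ≤ ε / 16 * μ * r) :
    F + r * (v ^ 2 - κ * 1 * ω - μ * 1) < 0 := by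
  have hK := h.hK
  have hε := h.hε
  have hεμ : 0 < ε * μ := mul_pos hε hμ
  have hv2 : v ^ 2 ≤ 1 := by nlinarith
  -- K ω + μ ≥ 1 + ε μ
  have key : 1 + ε * μ ≤ K * ω + μ := by
    rcases le_total (c * μ) (α - b) with h1 | h1
    · have h2 : K * (α - b - c * μ) ≤ K * ω := mul_le_mul_of_nonneg_left hL (by linarith)
      have h3 : (K * c + ε) * μ ≤ 1 * μ := mul_le_mul_of_nonneg_right h.hKc hμ.le
      have h4 := h.hT
      nlinarith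
    · have h2 : K * (α - b) ≤ K * (c * μ) := mul_le_mul_of_nonneg_left h1 (by linarith)
      have h3 : (K * c + ε) * μ ≤ 1 * μ := mul_le_mul_of_nonneg_right h.hKc hμ.le
      have h4 := h.hT
      have h5 : 0 ≤ K * ω := mul_nonneg (by linarith) hω
      nlinarith
  have h6 : (K - ε / 16 * μ) * ω ≤ κ * ω := mul_le_mul_of_nonneg_right hκ hω
  have h7 : ε / 16 * μ * ω ≤ ε / 16 * μ * 1 :=
    mul_le_mul_of_nonneg_left hω1 (by positivity)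
  have h8 : v ^ 2 - κ * 1 * ω - μ * 1 ≤ - (15 / 16 * (ε * μ)) := by nlinarith
  have h9 : r * (v ^ 2 - κ * 1 * ω - μ * 1) ≤ r * (- (15 / 16 * (ε * μ))) :=
    mul_le_mul_of_nonneg_left h8 hr.le
  have h10 : 0 < r * (ε * μ) := mul_pos hr hεμ
  nlinarith

theorem alg_L {K R₀ α b q c ε : ℝ} (h : Reg K R₀ α b q c ε) {μ r κ r₁ κ₁ μ₁ y z ω v F F₁ : ℝ}
    (hμ : 0 < μ) (hr : 0 < r) (hR : R₀ * r ≤ r₁) (hR4 : r₁ ≤ 4 * r) (hμ₁ : μ₁ * r₁ = 4 * (μ * r))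
    (hκ : K - ε / 16 * μ ≤ κ) (hκ₁ : κ₁ ≤ K) (hy : 0 ≤ y) (hy1 : y ≤ 1)
    (hz : z = α * y ^ 2 - b - c * μ) (hz0 : 0 ≤ z) (hz1 : z ≤ 1) (hω : 0 ≤ ω)
    (hω1 : ω ≤ 1 - q * (1 - z))
    (hv : 0 ≤ v) (hv1 : v ≤ 1) (hv2 : α * v ^ 2 ≤ y + b + c * μ)
    (hF : F ≤ ε / 16 * μ * r) (hF₁ : 0 ≤ F₁) :
    0 < F₁ + r₁ * (y ^ 2 - κ₁ * z * ω - μ₁ * z)
      - 2 * α * y * (F + r * (v ^ 2 - κ * y * z - μ * y)) := by
  have hε := h.hε
  have hb := h.hb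
  have hα : 0 < α := by
    have h1 := h.hT
    have h2 := h.hK
    by_contra hneg
    push Not at hneg
    nlinarith
  set R := r₁ / r with hRdef
  have hRr : r₁ = R * r := by rw [hRdef]; field_simp
  have hR1 : R₀ ≤ R := by rw [hRdef, le_div_iff₀ hr]; exact hR
  have hR2 : R ≤ 4 := by rw [hRdef, div_le_iff₀ hr]; exact hR4
  have hR0 : 0 ≤ R := by linarith [h.hR₀]
  have hV1 : v ^ 2 ≤ 1 := by nlinarith
  have main := h.hL R μ y z ω (v ^ 2) hR1 hR2 hμ hy hy1 hz hz0 hω hω1 (sq_nonneg v) hV1 hv2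
  have hzω : 0 ≤ z * ω := mul_nonneg hz0 hω
  -- replace κ₁ by K
  have e1 : κ₁ * (z * ω) ≤ K * (z * ω) := mul_le_mul_of_nonneg_right hκ₁ hzω
  have e2 : R * (κ₁ * (z * ω)) ≤ R * (K * (z * ω)) := mul_le_mul_of_nonneg_left e1 hR0
  -- replace κ by K
  have hyy : 0 ≤ y * (y * z) := mul_nonneg hy (mul_nonneg hy hz0)
  have hyy1 : y * (y * z) ≤ 1 := by
    have h1 : y * z ≤ 1 * 1 := mul_le_mul hy1 hz1 hz0 (by norm_num)
    have h2 : y * (y * z) ≤ 1 * 1 := mul_le_mul hy1 (by linarith) (mul_nonneg hy hz0) (by norm_num)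
    linarith
  have e3 : (K - ε / 16 * μ) * (y * (y * z)) ≤ κ * (y * (y * z)) :=
    mul_le_mul_of_nonneg_right hκ hyy
  have hεμ : 0 < ε * μ := mul_pos hε hμ
  have e4 : ε / 16 * μ * (y * (y * z)) ≤ ε / 16 * μ * 1 :=
    mul_le_mul_of_nonneg_left hyy1 (by positivity)
  have e5 : K * (y * (y * z)) - ε / 16 * μ ≤ κ * (y * (y * z)) := by nlinarith
  have e6 : 2 * α * (K * (y * (y * z)) - ε / 16 * μ) ≤ 2 * α * (κ * (y * (y * z))) :=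
    mul_le_mul_of_nonneg_left e5 (by positivity)
  have e7 : 2 * α * (ε / 16 * μ) ≤ 3 * (ε / 16 * μ) :=
    mul_le_mul_of_nonneg_right (by linarith [h.hα2]) (by positivity)
  -- the bracket divided by r
  have e8 : 13 / 16 * (ε * μ) ≤ R * (y ^ 2 - κ₁ * z * ω) - 4 * μ * z
      - 2 * α * y * (v ^ 2 - κ * y * z - μ * y) := by nlinarith
  have e9 : r * (13 / 16 * (ε * μ)) ≤ r * (R * (y ^ 2 - κ₁ * z * ω) - 4 * μ * z
      - 2 * α * y * (v ^ 2 - κ * y * z - μ * y)) := mul_le_mul_of_nonneg_left e8 hr.le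
  have e10 : y * F ≤ 1 * (ε / 16 * μ * r) := by
    rcases le_total F 0 with h0 | h0
    · have : y * F ≤ 0 := mul_nonpos_of_nonneg_of_nonpos hy h0
      have : 0 ≤ ε / 16 * μ * r := by positivity
      linarith
    · exact mul_le_mul hy1 hF h0 (by norm_num)
  have e11 : 2 * α * (y * F) ≤ 3 * (ε / 16 * μ * r) := by
    have h1 : 2 * α * (y * F) ≤ 2 * α * (1 * (ε / 16 * μ * r)) :=
      mul_le_mul_of_nonneg_left e10 (by positivity)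
    have h2 : 2 * α * (1 * (ε / 16 * μ * r)) ≤ 3 * (1 * (ε / 16 * μ * r)) :=
      mul_le_mul_of_nonneg_right (by linarith [h.hα2]) (by positivity)
    linarith
  have e12 : r₁ * (y ^ 2 - κ₁ * z * ω - μ₁ * z)
      = r * (R * (y ^ 2 - κ₁ * z * ω)) - r * (4 * μ * z) := by
    have : r₁ * (y ^ 2 - κ₁ * z * ω - μ₁ * z) = r₁ * (y ^ 2 - κ₁ * z * ω) - (μ₁ * r₁) * z := by ring
    rw [this, hμ₁, hRr]
    ring
  have hrεμ : 0 < r * (ε * μ) := mul_pos hr hεμ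
  have e13 : F₁ + r₁ * (y ^ 2 - κ₁ * z * ω - μ₁ * z)
      - 2 * α * y * (F + r * (v ^ 2 - κ * y * z - μ * y))
      = F₁ - 2 * α * (y * F) + r * (R * (y ^ 2 - κ₁ * z * ω) - 4 * μ * z
      - 2 * α * y * (v ^ 2 - κ * y * z - μ * y)) := by
    rw [e12]; ring
  rw [e13]
  nlinarith

theorem alg_U {K R₀ α b q c ε : ℝ} (h : Reg K R₀ α b q c ε) {μ r κ r₁ κ₁ μ₁ y z ω v F F₁ : ℝ}
    (hμ : 0 < μ) (hr : 0 < r) (hR : R₀ * r ≤ r₁) (hR4 : r₁ ≤ 4 * r) (hμ₁ : μ₁ * r₁ = 4 * (μ * r))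
    (hκ : κ ≤ K) (hκ₁ : K - ε / 16 * μ ≤ κ₁) (hy : 0 ≤ y) (hy1 : y ≤ 1)
    (hz : z = 1 - q * (1 - y)) (hω : 0 ≤ ω) (hω1 : ω ≤ 1)
    (hωL : α * z ^ 2 - b - c * μ₁ ≤ ω)
    (hv : 0 ≤ v) (hv1 : v ≤ 1) (hyv : y ≤ 1 - q * (1 - v))
    (hF : 0 ≤ F) (hF₁ : F₁ ≤ ε / 16 * μ₁ * r₁) :
    0 < q * (F + r * (v ^ 2 - κ * y * z - μ * y))
      - (F₁ + r₁ * (y ^ 2 - κ₁ * z * ω - μ₁ * z)) := by
  have hε := h.hε
  have hq := h.hq
  have hq1 := h.hq1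
  set R := r₁ / r with hRdef
  have hRr : r₁ = R * r := by rw [hRdef]; field_simp
  have hR1 : R₀ ≤ R := by rw [hRdef, le_div_iff₀ hr]; exact hR
  have hR2 : R ≤ 4 := by rw [hRdef, div_le_iff₀ hr]; exact hR4
  have hR0 : 0 ≤ R := by linarith [h.hR₀]
  have hz0 : 0 ≤ z := by rw [hz]; nlinarith
  have hz1 : z ≤ 1 := by rw [hz]; nlinarith
  have hRμ : R * μ₁ = 4 * μ := by
    have : R * μ₁ * r = 4 * μ * r := by
      calc R * μ₁ * r = μ₁ * (R * r) := by ring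
        _ = μ₁ * r₁ := by rw [← hRr]
        _ = 4 * μ * r := by rw [hμ₁]; ring
    exact mul_right_cancel₀ hr.ne' this
  have hωR : R * (α * z ^ 2 - b) - 4 * c * μ ≤ R * ω := by
    have h1 := mul_le_mul_of_nonneg_left hωL hR0
    have h2 : R * (α * z ^ 2 - b - c * μ₁) = R * (α * z ^ 2 - b) - c * (R * μ₁) := by ring
    rw [h2, hRμ] at h1
    linarith
  have main := h.hU R μ y z ω v hR1 hR2 hμ hy hy1 hz hv hv1 hyv hωR
  have hyz : 0 ≤ y * z := mul_nonneg hy hz0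
  have hεμ : 0 < ε * μ := mul_pos hε hμ
  have e1 : κ * (y * z) ≤ K * (y * z) := mul_le_mul_of_nonneg_right hκ hyz
  have e2 : q * (κ * (y * z)) ≤ q * (K * (y * z)) := mul_le_mul_of_nonneg_left e1 hq.le
  have hzω : 0 ≤ z * ω := mul_nonneg hz0 hω
  have hzω1 : z * ω ≤ 1 := by
    have h1 : z * ω ≤ 1 * 1 := mul_le_mul hz1 hω1 hω (by norm_num)
    linarith
  have e3 : (K - ε / 16 * μ) * (z * ω) ≤ κ₁ * (z * ω) := mul_le_mul_of_nonneg_right hκ₁ hzω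
  have e4 : ε / 16 * μ * (z * ω) ≤ ε / 16 * μ * 1 :=
    mul_le_mul_of_nonneg_left hzω1 (by positivity)
  have e5 : K * (z * ω) - ε / 16 * μ ≤ κ₁ * (z * ω) := by nlinarith
  have e6 : R * (K * (z * ω) - ε / 16 * μ) ≤ R * (κ₁ * (z * ω)) := mul_le_mul_of_nonneg_left e5 hR0
  have e7 : R * (ε / 16 * μ) ≤ 4 * (ε / 16 * μ) := mul_le_mul_of_nonneg_right hR2 (by positivity)
  have e8 : 12 / 16 * (ε * μ) ≤ q * (v ^ 2 - κ * y * z - μ * y) - R * (y ^ 2 - κ₁ * z * ω)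
      + 4 * μ * z := by nlinarith
  have e9 : r * (12 / 16 * (ε * μ)) ≤ r * (q * (v ^ 2 - κ * y * z - μ * y)
      - R * (y ^ 2 - κ₁ * z * ω) + 4 * μ * z) := mul_le_mul_of_nonneg_left e8 hr.le
  have hF₁' : F₁ ≤ ε / 16 * (4 * (μ * r)) := by
    have : ε / 16 * μ₁ * r₁ = ε / 16 * (μ₁ * r₁) := by ring
    rw [this, hμ₁] at hF₁
    exact hF₁
  have hqF : 0 ≤ q * F := mul_nonneg hq.le hF
  have hrεμ : 0 < r * (ε * μ) := mul_pos hr hεμ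
  have e12 : r₁ * (y ^ 2 - κ₁ * z * ω - μ₁ * z)
      = r * (R * (y ^ 2 - κ₁ * z * ω)) - r * (4 * μ * z) := by
    have : r₁ * (y ^ 2 - κ₁ * z * ω - μ₁ * z) = r₁ * (y ^ 2 - κ₁ * z * ω) - (μ₁ * r₁) * z := by ring
    rw [this, hμ₁, hRr]
    ring
  have e13 : q * (F + r * (v ^ 2 - κ * y * z - μ * y))
      - (F₁ + r₁ * (y ^ 2 - κ₁ * z * ω - μ₁ * z))
      = q * F - F₁ + r * (q * (v ^ 2 - κ * y * z - μ * y)
      - R * (y ^ 2 - κ₁ * z * ω) + 4 * μ * z) := by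
    rw [e12]; ring
  rw [e13]
  nlinarith

theorem alg_U0 {K R₀ α b q c ε : ℝ} (h : Reg K R₀ α b q c ε) {μ r κ ω F : ℝ}
    (hμ : 0 < μ) (hr : 0 < r) (hκ : 0 ≤ κ) (hω : 0 ≤ ω) (hF : F ≤ ε / 16 * μ * r) :
    F + r * ((0:ℝ) ^ 2 - κ * (1 - q) * ω - μ * (1 - q)) < 0 := by
  have hε := h.hε
  have hq1 := h.hq1
  have h1 : 0 ≤ r * (κ * (1 - q) * ω) := by
    have : 0 ≤ 1 - q := by linarith
    positivity
  have h2 : ε * (μ * r) ≤ (1 - q) * (μ * r) := mul_le_mul_of_nonneg_right h.hεq (by positivity)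
  have h3 : 0 < ε * (μ * r) := by positivity
  nlinarith

end Pool.Agent.N167.DY
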