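import Pool.Agent.N167.DY.Alg

namespace Pool.Agent.N167.DY

/-- Amplitudes `A n` of the invariant region, with the dimensionless parameters of the system for
`w n = X n / A n`: `w_n' = f_n / A_n + r_n (w_{n-1}^2 - κ_n w_n w_{n+1} - μ_n w_n)`. -/
structure Amp (β ν K R₀ α c ε : ℝ) (A κ μ r : ℕ → ℝ) : Prop where
  A_pos : ∀ n, 0 < A n
  r_pos : ∀ n, 0 < r n
  μ_pos : ∀ n, 0 < μ n
  κ_nonneg : ∀ n, 0 ≤ κ n
  hr : ∀ n, r (n + 1) * A (n + 1) = kk β n * A n ^ 2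
  hκ : ∀ n, κ n * r n = kk β n * A (n + 1)
  hμ : ∀ n, μ n * r n = ν * 4 ^ n
  hR : ∀ n, R₀ * r n ≤ r (n + 1)
  hR4 : ∀ n, r (n + 1) ≤ 4 * r n
  hκK : ∀ n, κ n ≤ K
  hκ1 : ∀ n, K - ε / 16 * μ n ≤ κ n
  hκ2 : ∀ n, K - ε / 16 * μ n ≤ κ (n + 1)

/-- previous component, zero for `n = 0` -/
def prev (w : ℕ → ℝ) : ℕ → ℝ
  | 0 => 0
  | n + 1 => w n

theorem kk_pos (β : ℝ) (n : ℕ) : 0 < kk β n := Real.rpow_pos_of_pos (by norm_num) _

theorem rhs_eq {β ν K R₀ α c ε : ℝ} {A κ μ r : ℕ → ℝ} (h : Amp β ν K R₀ α c ε A κ μ r)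
    (f X : ℕ → ℝ) (n : ℕ) :
    rhs β ν f X n / A n = f n / A n + r n * (prev (fun m => X m / A m) n ^ 2
      - κ n * (X n / A n) * (X (n + 1) / A (n + 1)) - μ n * (X n / A n)) := by
  have hA := h.A_pos n
  have hA1 := h.A_pos (n + 1)
  have e1 : kk β n = κ n * r n / A (n + 1) := by rw [h.hκ n]; field_simp
  have e2 : inflow β X n / A n = r n * prev (fun m => X m / A m) n ^ 2 := by
    cases n with
    | zero => simp [inflow, prev]
    | succ m =>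
      have hAm := h.A_pos m
      simp only [inflow, prev]
      have h1 := h.hr m
      rw [div_eq_iff hA.ne']
      have : kk β m = r (m + 1) * A (m + 1) / A m ^ 2 := by rw [h1]; field_simp
      rw [this]
      field_simp
  have e3 : ν * 4 ^ n = μ n * r n := (h.hμ n).symm
  unfold rhs
  rw [sub_div, add_div, sub_div, e2, e3, e1]
  field_simp
  ring

theorem μ_succ {β ν K R₀ α c ε : ℝ} {A κ μ r : ℕ → ℝ} (h : Amp β ν K R₀ α c ε A κ μ r) (n : ℕ) :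
    μ (n + 1) * r (n + 1) = 4 * (μ n * r n) := by
  rw [h.hμ, h.hμ, pow_succ]; ring

theorem μ_mono {β ν K R₀ α c ε : ℝ} {A κ μ r : ℕ → ℝ} (h : Amp β ν K R₀ α c ε A κ μ r) (n : ℕ) :
    μ n ≤ μ (n + 1) := by
  have h1 := μ_succ h n
  have h2 := h.hR4 n
  have h3 := h.r_pos n
  have h4 := h.r_pos (n + 1)
  have h5 := h.μ_pos n
  have h6 : μ n * r (n + 1) ≤ μ (n + 1) * r (n + 1) := by
    rw [h1]
    nlinarith
  exact le_of_mul_le_mul_right h6 h4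

end Pool.Agent.N167.DY
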