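import Pool.Agent.N167.DY.RegOf

/-! The seven boxes of parameters. -/

set_option linter.unusedVariables false

namespace Pool.Agent.N167.DY

theorem p0_1 (z μ y : ℝ) (hz : 0 ≤ z) (hμ : 0 < μ) (hy : 0 ≤ y) (hy1 : y ≤ 1)
    (h : (103/100) * y ^ 2 = z + (3/100) + (17/20) * μ) :
    0 ≤ y ^ 2 - (1) * z * (1 - (5/9) * (1 - z)) := by
  have hz1 : z ≤ (103/100) - (3/100) - (17/20) * μ := by nlinarith
  have hy2 : y ^ 2 = (z + (3/100) + (17/20) * μ) / (103/100) := by rw [← h]; ring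
  rw [hy2]
  nlinarith [mul_nonneg hz hμ.le, mul_nonneg (sub_nonneg.2 hz1) hμ.le, mul_nonneg (sub_nonneg.2 hz1) hz, mul_nonneg (sub_nonneg.2 hz1) (sub_nonneg.2 hz1)]

theorem p1_1 (z μ y : ℝ) (hz : 0 ≤ z) (hμ : 0 < μ) (hy : 0 ≤ y) (hy1 : y ≤ 1)
    (h : (103/100) * y ^ 2 = z + (3/100) + (17/20) * μ) (hreg : (103/100) ≤ y + (3/100) + (17/20) * μ) :
    (1/100) * μ ≤ (39/10) * (y ^ 2 - (1) * z * (1 - (5/9) * (1 - z))) - 4 * μ * z - 2 * (103/100) * y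
        + 2 * (z + (3/100) + (17/20) * μ) * ((1) * z + μ) := by
  have hz1 : z ≤ (103/100) - (3/100) - (17/20) * μ := by nlinarith
  have hy2 : y ^ 2 = (z + (3/100) + (17/20) * μ) / (103/100) := by rw [← h]; ring
  nlinarith [mul_nonneg hz hμ.le, mul_nonneg (sub_nonneg.2 hz1) hμ.le, mul_nonneg (sub_nonneg.2 hz1) hz, mul_nonneg (sub_nonneg.2 hz1) (sub_nonneg.2 hz1), sq_nonneg (y-1), sq_nonneg (y-4/5)]

theorem p2_1 (z μ y : ℝ) (hz : 0 ≤ z) (hμ : 0 < μ) (hy : 0 ≤ y) (hy1 : y ≤ 1)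
    (h : (103/100) * y ^ 2 = z + (3/100) + (17/20) * μ) (hreg : y + (3/100) + (17/20) * μ ≤ (103/100)) :
    (1/100) * μ ≤ (39/10) * (y ^ 2 - (1) * z * (1 - (5/9) * (1 - z))) - 4 * μ * z
        - 2 * y * (y + (3/100) + (17/20) * μ) + 2 * (z + (3/100) + (17/20) * μ) * ((1) * z + μ) := by
  have hz1 : z ≤ (103/100) - (3/100) - (17/20) * μ := by nlinarith
  have hy2 : y ^ 2 = (z + (3/100) + (17/20) * μ) / (103/100) := by rw [← h]; ring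
  nlinarith [mul_nonneg hz hμ.le, mul_nonneg (sub_nonneg.2 hz1) hμ.le, mul_nonneg (sub_nonneg.2 hz1) hz, mul_nonneg (sub_nonneg.2 hz1) (sub_nonneg.2 hz1), sq_nonneg (y-1), sq_nonneg (y-1/2), mul_nonneg hμ.le (sq_nonneg (y-1))]

theorem g1a_1 (x : ℝ) (hx : 0 ≤ x) (hx1 : x ≤ (5/9)) :
    0 ≤ ((5/9) - x) ^ 2 - (5/9) * ((5/9) * (1) * (1 - x) * (1 - (5/9) * x))
      - (5/9) * ((39/10) * (1 - x) ^ 2)
      + (5/9) * ((39/10) * (1) * (1 - (5/9) * x) * ((103/100) * (1 - (5/9) * x) ^ 2 - (3/100))) := by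
  nlinarith [mul_nonneg hx (sub_nonneg.2 hx1), mul_nonneg hx (mul_nonneg hx (sub_nonneg.2 hx1)), mul_nonneg hx (mul_nonneg (sub_nonneg.2 hx1) (sub_nonneg.2 hx1)), mul_nonneg hx (mul_nonneg hx hx)]

theorem g2a_1 (x : ℝ) (hx : (5/9) ≤ x) (hx1 : x ≤ 1) :
    0 ≤ - ((5/9) * (1) * (1 - x) * (1 - (5/9) * x))
      - (39/10) * (1 - x) ^ 2 + (39/10) * (1) * (1 - (5/9) * x) * ((103/100) * (1 - (5/9) * x) ^ 2 - (3/100)) := by
  nlinarith [mul_nonneg (sub_nonneg.2 hx) (sub_nonneg.2 hx1), mul_nonneg (sub_nonneg.2 hx) (mul_nonneg (sub_nonneg.2 hx) (sub_nonneg.2 hx1)), mul_nonneg (sub_nonneg.2 hx1) (mul_nonneg (sub_nonneg.2 hx) (sub_nonneg.2 hx1)), mul_nonneg (sub_nonneg.2 hx) (mul_nonneg (sub_nonneg.2 hx) (sub_nonneg.2 hx))]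

theorem g1b_1 (x : ℝ) (hx : 0 ≤ x) (hx1 : x ≤ (5/9)) :
    0 ≤ ((5/9) - x) ^ 2 - (5/9) * ((5/9) * (1) * (1 - x) * (1 - (5/9) * x))
      - (5/9) * (4 * (1 - x) ^ 2)
      + (5/9) * (4 * (1) * (1 - (5/9) * x) * ((103/100) * (1 - (5/9) * x) ^ 2 - (3/100))) := by
  nlinarith [mul_nonneg hx (sub_nonneg.2 hx1), mul_nonneg hx (mul_nonneg hx (sub_nonneg.2 hx1)), mul_nonneg hx (mul_nonneg (sub_nonneg.2 hx1) (sub_nonneg.2 hx1)), mul_nonneg hx (mul_nonneg hx hx)]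

theorem g2b_1 (x : ℝ) (hx : (5/9) ≤ x) (hx1 : x ≤ 1) :
    0 ≤ - ((5/9) * (1) * (1 - x) * (1 - (5/9) * x))
      - 4 * (1 - x) ^ 2 + 4 * (1) * (1 - (5/9) * x) * ((103/100) * (1 - (5/9) * x) ^ 2 - (3/100)) := by
  nlinarith [mul_nonneg (sub_nonneg.2 hx) (sub_nonneg.2 hx1), mul_nonneg (sub_nonneg.2 hx) (mul_nonneg (sub_nonneg.2 hx) (sub_nonneg.2 hx1)), mul_nonneg (sub_nonneg.2 hx1) (mul_nonneg (sub_nonneg.2 hx) (sub_nonneg.2 hx1)), mul_nonneg (sub_nonneg.2 hx) (mul_nonneg (sub_nonneg.2 hx) (sub_nonneg.2 hx))]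

theorem reg_1 : Reg (1) (39/10) (103/100) (3/100) (5/9) (17/20) (1/100) :=
  reg_of (by norm_num) (by norm_num) (by norm_num) (by norm_num) (by norm_num) (by norm_num)
    (by norm_num) (by norm_num) (by norm_num) (by norm_num) (by norm_num) (by norm_num)
    (by norm_num) (by norm_num) (by norm_num) (by norm_num)
    p0_1 p1_1 p2_1 g1a_1 g1b_1 g2a_1 g2b_1

theorem p0_2 (z μ y : ℝ) (hz : 0 ≤ z) (hμ : 0 < μ) (hy : 0 ≤ y) (hy1 : y ≤ 1)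
    (h : (966/1000) * y ^ 2 = z + (18/1000) + (78/100) * μ) :
    0 ≤ y ^ 2 - (107/100) * z * (1 - (58/100) * (1 - z)) := by
  have hz1 : z ≤ (966/1000) - (18/1000) - (78/100) * μ := by nlinarith
  have hy2 : y ^ 2 = (z + (18/1000) + (78/100) * μ) / (966/1000) := by rw [← h]; ring
  rw [hy2]
  nlinarith [mul_nonneg hz hμ.le, mul_nonneg (sub_nonneg.2 hz1) hμ.le, mul_nonneg (sub_nonneg.2 hz1) hz, mul_nonneg (sub_nonneg.2 hz1) (sub_nonneg.2 hz1)]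

theorem p1_2 (z μ y : ℝ) (hz : 0 ≤ z) (hμ : 0 < μ) (hy : 0 ≤ y) (hy1 : y ≤ 1)
    (h : (966/1000) * y ^ 2 = z + (18/1000) + (78/100) * μ) (hreg : (966/1000) ≤ y + (18/1000) + (78/100) * μ) :
    (1/100) * μ ≤ (15/4) * (y ^ 2 - (107/100) * z * (1 - (58/100) * (1 - z))) - 4 * μ * z - 2 * (966/1000) * y
        + 2 * (z + (18/1000) + (78/100) * μ) * ((107/100) * z + μ) := by
  have hz1 : z ≤ (966/1000) - (18/1000) - (78/100) * μ := by nlinarith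
  have hy2 : y ^ 2 = (z + (18/1000) + (78/100) * μ) / (966/1000) := by rw [← h]; ring
  nlinarith [mul_nonneg hz hμ.le, mul_nonneg (sub_nonneg.2 hz1) hμ.le, mul_nonneg (sub_nonneg.2 hz1) hz, mul_nonneg (sub_nonneg.2 hz1) (sub_nonneg.2 hz1), sq_nonneg (y-1), sq_nonneg (y-4/5)]

theorem p2_2 (z μ y : ℝ) (hz : 0 ≤ z) (hμ : 0 < μ) (hy : 0 ≤ y) (hy1 : y ≤ 1)
    (h : (966/1000) * y ^ 2 = z + (18/1000) + (78/100) * μ) (hreg : y + (18/1000) + (78/100) * μ ≤ (966/1000)) :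
    (1/100) * μ ≤ (15/4) * (y ^ 2 - (107/100) * z * (1 - (58/100) * (1 - z))) - 4 * μ * z
        - 2 * y * (y + (18/1000) + (78/100) * μ) + 2 * (z + (18/1000) + (78/100) * μ) * ((107/100) * z + μ) := by
  have hz1 : z ≤ (966/1000) - (18/1000) - (78/100) * μ := by nlinarith
  have hy2 : y ^ 2 = (z + (18/1000) + (78/100) * μ) / (966/1000) := by rw [← h]; ring
  nlinarith [mul_nonneg hz hμ.le, mul_nonneg (sub_nonneg.2 hz1) hμ.le, mul_nonneg (sub_nonneg.2 hz1) hz, mul_nonneg (sub_nonneg.2 hz1) (sub_nonneg.2 hz1), sq_nonneg (y-1), sq_nonneg (y-1/2), mul_nonneg hμ.le (sq_nonneg (y-1))]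

theorem g1a_2 (x : ℝ) (hx : 0 ≤ x) (hx1 : x ≤ (58/100)) :
    0 ≤ ((58/100) - x) ^ 2 - (58/100) * ((58/100) * (107/100) * (1 - x) * (1 - (58/100) * x))
      - (58/100) * ((15/4) * (1 - x) ^ 2)
      + (58/100) * ((15/4) * (107/100) * (1 - (58/100) * x) * ((966/1000) * (1 - (58/100) * x) ^ 2 - (18/1000))) := by
  nlinarith [mul_nonneg hx (sub_nonneg.2 hx1), mul_nonneg hx (mul_nonneg hx (sub_nonneg.2 hx1)), mul_nonneg hx (mul_nonneg (sub_nonneg.2 hx1) (sub_nonneg.2 hx1)), mul_nonneg hx (mul_nonneg hx hx)]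

theorem g2a_2 (x : ℝ) (hx : (58/100) ≤ x) (hx1 : x ≤ 1) :
    0 ≤ - ((58/100) * (107/100) * (1 - x) * (1 - (58/100) * x))
      - (15/4) * (1 - x) ^ 2 + (15/4) * (107/100) * (1 - (58/100) * x) * ((966/1000) * (1 - (58/100) * x) ^ 2 - (18/1000)) := by
  nlinarith [mul_nonneg (sub_nonneg.2 hx) (sub_nonneg.2 hx1), mul_nonneg (sub_nonneg.2 hx) (mul_nonneg (sub_nonneg.2 hx) (sub_nonneg.2 hx1)), mul_nonneg (sub_nonneg.2 hx1) (mul_nonneg (sub_nonneg.2 hx) (sub_nonneg.2 hx1)), mul_nonneg (sub_nonneg.2 hx) (mul_nonneg (sub_nonneg.2 hx) (sub_nonneg.2 hx))]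

theorem g1b_2 (x : ℝ) (hx : 0 ≤ x) (hx1 : x ≤ (58/100)) :
    0 ≤ ((58/100) - x) ^ 2 - (58/100) * ((58/100) * (107/100) * (1 - x) * (1 - (58/100) * x))
      - (58/100) * (4 * (1 - x) ^ 2)
      + (58/100) * (4 * (107/100) * (1 - (58/100) * x) * ((966/1000) * (1 - (58/100) * x) ^ 2 - (18/1000))) := by
  nlinarith [mul_nonneg hx (sub_nonneg.2 hx1), mul_nonneg hx (mul_nonneg hx (sub_nonneg.2 hx1)), mul_nonneg hx (mul_nonneg (sub_nonneg.2 hx1) (sub_nonneg.2 hx1)), mul_nonneg hx (mul_nonneg hx hx)]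

theorem g2b_2 (x : ℝ) (hx : (58/100) ≤ x) (hx1 : x ≤ 1) :
    0 ≤ - ((58/100) * (107/100) * (1 - x) * (1 - (58/100) * x))
      - 4 * (1 - x) ^ 2 + 4 * (107/100) * (1 - (58/100) * x) * ((966/1000) * (1 - (58/100) * x) ^ 2 - (18/1000)) := by
  nlinarith [mul_nonneg (sub_nonneg.2 hx) (sub_nonneg.2 hx1), mul_nonneg (sub_nonneg.2 hx) (mul_nonneg (sub_nonneg.2 hx) (sub_nonneg.2 hx1)), mul_nonneg (sub_nonneg.2 hx1) (mul_nonneg (sub_nonneg.2 hx) (sub_nonneg.2 hx1)), mul_nonneg (sub_nonneg.2 hx) (mul_nonneg (sub_nonneg.2 hx) (sub_nonneg.2 hx))]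

theorem reg_2 : Reg (107/100) (15/4) (966/1000) (18/1000) (58/100) (78/100) (1/100) :=
  reg_of (by norm_num) (by norm_num) (by norm_num) (by norm_num) (by norm_num) (by norm_num)
    (by norm_num) (by norm_num) (by norm_num) (by norm_num) (by norm_num) (by norm_num)
    (by norm_num) (by norm_num) (by norm_num) (by norm_num)
    p0_2 p1_2 p2_2 g1a_2 g1b_2 g2a_2 g2b_2

theorem p0_3 (z μ y : ℝ) (hz : 0 ≤ z) (hμ : 0 < μ) (hy : 0 ≤ y) (hy1 : y ≤ 1)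
    (h : (857/1000) * y ^ 2 = z + (24/1000) + (3/5) * μ) :
    0 ≤ y ^ 2 - (129/100) * z * (1 - (61/100) * (1 - z)) := by
  have hz1 : z ≤ (857/1000) - (24/1000) - (3/5) * μ := by nlinarith
  have hy2 : y ^ 2 = (z + (24/1000) + (3/5) * μ) / (857/1000) := by rw [← h]; ring
  rw [hy2]
  nlinarith [mul_nonneg hz hμ.le, mul_nonneg (sub_nonneg.2 hz1) hμ.le, mul_nonneg (sub_nonneg.2 hz1) hz, mul_nonneg (sub_nonneg.2 hz1) (sub_nonneg.2 hz1)]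

theorem p1_3 (z μ y : ℝ) (hz : 0 ≤ z) (hμ : 0 < μ) (hy : 0 ≤ y) (hy1 : y ≤ 1)
    (h : (857/1000) * y ^ 2 = z + (24/1000) + (3/5) * μ) (hreg : (857/1000) ≤ y + (24/1000) + (3/5) * μ) :
    (1/100) * μ ≤ (15/4) * (y ^ 2 - (129/100) * z * (1 - (61/100) * (1 - z))) - 4 * μ * z - 2 * (857/1000) * y
        + 2 * (z + (24/1000) + (3/5) * μ) * ((129/100) * z + μ) := by
  have hz1 : z ≤ (857/1000) - (24/1000) - (3/5) * μ := by nlinarith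
  have hy2 : y ^ 2 = (z + (24/1000) + (3/5) * μ) / (857/1000) := by rw [← h]; ring
  nlinarith [mul_nonneg hz hμ.le, mul_nonneg (sub_nonneg.2 hz1) hμ.le, mul_nonneg (sub_nonneg.2 hz1) hz, mul_nonneg (sub_nonneg.2 hz1) (sub_nonneg.2 hz1), sq_nonneg (y-1), sq_nonneg (y-4/5)]

theorem p2_3 (z μ y : ℝ) (hz : 0 ≤ z) (hμ : 0 < μ) (hy : 0 ≤ y) (hy1 : y ≤ 1)
    (h : (857/1000) * y ^ 2 = z + (24/1000) + (3/5) * μ) (hreg : y + (24/1000) + (3/5) * μ ≤ (857/1000)) :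
    (1/100) * μ ≤ (15/4) * (y ^ 2 - (129/100) * z * (1 - (61/100) * (1 - z))) - 4 * μ * z
        - 2 * y * (y + (24/1000) + (3/5) * μ) + 2 * (z + (24/1000) + (3/5) * μ) * ((129/100) * z + μ) := by
  have hz1 : z ≤ (857/1000) - (24/1000) - (3/5) * μ := by nlinarith
  have hy2 : y ^ 2 = (z + (24/1000) + (3/5) * μ) / (857/1000) := by rw [← h]; ring
  nlinarith [mul_nonneg hz hμ.le, mul_nonneg (sub_nonneg.2 hz1) hμ.le, mul_nonneg (sub_nonneg.2 hz1) hz, mul_nonneg (sub_nonneg.2 hz1) (sub_nonneg.2 hz1), sq_nonneg (y-1), sq_nonneg (y-1/2), mul_nonneg hμ.le (sq_nonneg (y-1))]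

theorem g1a_3 (x : ℝ) (hx : 0 ≤ x) (hx1 : x ≤ (61/100)) :
    0 ≤ ((61/100) - x) ^ 2 - (61/100) * ((61/100) * (129/100) * (1 - x) * (1 - (61/100) * x))
      - (61/100) * ((15/4) * (1 - x) ^ 2)
      + (61/100) * ((15/4) * (129/100) * (1 - (61/100) * x) * ((857/1000) * (1 - (61/100) * x) ^ 2 - (24/1000))) := by
  nlinarith [mul_nonneg hx (sub_nonneg.2 hx1), mul_nonneg hx (mul_nonneg hx (sub_nonneg.2 hx1)), mul_nonneg hx (mul_nonneg (sub_nonneg.2 hx1) (sub_nonneg.2 hx1)), mul_nonneg hx (mul_nonneg hx hx)]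

theorem g2a_3 (x : ℝ) (hx : (61/100) ≤ x) (hx1 : x ≤ 1) :
    0 ≤ - ((61/100) * (129/100) * (1 - x) * (1 - (61/100) * x))
      - (15/4) * (1 - x) ^ 2 + (15/4) * (129/100) * (1 - (61/100) * x) * ((857/1000) * (1 - (61/100) * x) ^ 2 - (24/1000)) := by
  nlinarith [mul_nonneg (sub_nonneg.2 hx) (sub_nonneg.2 hx1), mul_nonneg (sub_nonneg.2 hx) (mul_nonneg (sub_nonneg.2 hx) (sub_nonneg.2 hx1)), mul_nonneg (sub_nonneg.2 hx1) (mul_nonneg (sub_nonneg.2 hx) (sub_nonneg.2 hx1)), mul_nonneg (sub_nonneg.2 hx) (mul_nonneg (sub_nonneg.2 hx) (sub_nonneg.2 hx))]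

theorem g1b_3 (x : ℝ) (hx : 0 ≤ x) (hx1 : x ≤ (61/100)) :
    0 ≤ ((61/100) - x) ^ 2 - (61/100) * ((61/100) * (129/100) * (1 - x) * (1 - (61/100) * x))
      - (61/100) * (4 * (1 - x) ^ 2)
      + (61/100) * (4 * (129/100) * (1 - (61/100) * x) * ((857/1000) * (1 - (61/100) * x) ^ 2 - (24/1000))) := by
  nlinarith [mul_nonneg hx (sub_nonneg.2 hx1), mul_nonneg hx (mul_nonneg hx (sub_nonneg.2 hx1)), mul_nonneg hx (mul_nonneg (sub_nonneg.2 hx1) (sub_nonneg.2 hx1)), mul_nonneg hx (mul_nonneg hx hx)]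

theorem g2b_3 (x : ℝ) (hx : (61/100) ≤ x) (hx1 : x ≤ 1) :
    0 ≤ - ((61/100) * (129/100) * (1 - x) * (1 - (61/100) * x))
      - 4 * (1 - x) ^ 2 + 4 * (129/100) * (1 - (61/100) * x) * ((857/1000) * (1 - (61/100) * x) ^ 2 - (24/1000)) := by
  nlinarith [mul_nonneg (sub_nonneg.2 hx) (sub_nonneg.2 hx1), mul_nonneg (sub_nonneg.2 hx) (mul_nonneg (sub_nonneg.2 hx) (sub_nonneg.2 hx1)), mul_nonneg (sub_nonneg.2 hx1) (mul_nonneg (sub_nonneg.2 hx) (sub_nonneg.2 hx1)), mul_nonneg (sub_nonneg.2 hx) (mul_nonneg (sub_nonneg.2 hx) (sub_nonneg.2 hx))]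

theorem reg_3 : Reg (129/100) (15/4) (857/1000) (24/1000) (61/100) (3/5) (1/100) :=
  reg_of (by norm_num) (by norm_num) (by norm_num) (by norm_num) (by norm_num) (by norm_num)
    (by norm_num) (by norm_num) (by norm_num) (by norm_num) (by norm_num) (by norm_num)
    (by norm_num) (by norm_num) (by norm_num) (by norm_num)
    p0_3 p1_3 p2_3 g1a_3 g1b_3 g2a_3 g2b_3

theorem p0_4 (z μ y : ℝ) (hz : 0 ≤ z) (hμ : 0 < μ) (hy : 0 ≤ y) (hy1 : y ≤ 1)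
    (h : (104/100) * y ^ 2 = z + (356/1000) + (1/2) * μ) :
    0 ≤ y ^ 2 - (156/100) * z * (1 - (2/5) * (1 - z)) := by
  have hz1 : z ≤ (104/100) - (356/1000) - (1/2) * μ := by nlinarith
  have hy2 : y ^ 2 = (z + (356/1000) + (1/2) * μ) / (104/100) := by rw [← h]; ring
  rw [hy2]
  nlinarith [mul_nonneg hz hμ.le, mul_nonneg (sub_nonneg.2 hz1) hμ.le, mul_nonneg (sub_nonneg.2 hz1) hz, mul_nonneg (sub_nonneg.2 hz1) (sub_nonneg.2 hz1)]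

theorem p1_4 (z μ y : ℝ) (hz : 0 ≤ z) (hμ : 0 < μ) (hy : 0 ≤ y) (hy1 : y ≤ 1)
    (h : (104/100) * y ^ 2 = z + (356/1000) + (1/2) * μ) (hreg : (104/100) ≤ y + (356/1000) + (1/2) * μ) :
    (1/100) * μ ≤ (15/4) * (y ^ 2 - (156/100) * z * (1 - (2/5) * (1 - z))) - 4 * μ * z - 2 * (104/100) * y
        + 2 * (z + (356/1000) + (1/2) * μ) * ((156/100) * z + μ) := by
  have hz1 : z ≤ (104/100) - (356/1000) - (1/2) * μ := by nlinarith
  have hy2 : y ^ 2 = (z + (356/1000) + (1/2) * μ) / (104/100) := by rw [← h]; ring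
  nlinarith [mul_nonneg hz hμ.le, mul_nonneg (sub_nonneg.2 hz1) hμ.le, mul_nonneg (sub_nonneg.2 hz1) hz, mul_nonneg (sub_nonneg.2 hz1) (sub_nonneg.2 hz1), sq_nonneg (y-1), sq_nonneg (y-4/5)]

theorem p2_4 (z μ y : ℝ) (hz : 0 ≤ z) (hμ : 0 < μ) (hy : 0 ≤ y) (hy1 : y ≤ 1)
    (h : (104/100) * y ^ 2 = z + (356/1000) + (1/2) * μ) (hreg : y + (356/1000) + (1/2) * μ ≤ (104/100)) :
    (1/100) * μ ≤ (15/4) * (y ^ 2 - (156/100) * z * (1 - (2/5) * (1 - z))) - 4 * μ * z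
        - 2 * y * (y + (356/1000) + (1/2) * μ) + 2 * (z + (356/1000) + (1/2) * μ) * ((156/100) * z + μ) := by
  have hz1 : z ≤ (104/100) - (356/1000) - (1/2) * μ := by nlinarith
  have hy2 : y ^ 2 = (z + (356/1000) + (1/2) * μ) / (104/100) := by rw [← h]; ring
  nlinarith [mul_nonneg hz hμ.le, mul_nonneg (sub_nonneg.2 hz1) hμ.le, mul_nonneg (sub_nonneg.2 hz1) hz, mul_nonneg (sub_nonneg.2 hz1) (sub_nonneg.2 hz1), sq_nonneg (y-1), sq_nonneg (y-1/2), mul_nonneg hμ.le (sq_nonneg (y-1))]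

theorem g1a_4 (x : ℝ) (hx : 0 ≤ x) (hx1 : x ≤ (2/5)) :
    0 ≤ ((2/5) - x) ^ 2 - (2/5) * ((2/5) * (156/100) * (1 - x) * (1 - (2/5) * x))
      - (2/5) * ((15/4) * (1 - x) ^ 2)
      + (2/5) * ((15/4) * (156/100) * (1 - (2/5) * x) * ((104/100) * (1 - (2/5) * x) ^ 2 - (356/1000))) := by
  nlinarith [mul_nonneg hx (sub_nonneg.2 hx1), mul_nonneg hx (mul_nonneg hx (sub_nonneg.2 hx1)), mul_nonneg hx (mul_nonneg (sub_nonneg.2 hx1) (sub_nonneg.2 hx1)), mul_nonneg hx (mul_nonneg hx hx)]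

theorem g2a_4 (x : ℝ) (hx : (2/5) ≤ x) (hx1 : x ≤ 1) :
    0 ≤ - ((2/5) * (156/100) * (1 - x) * (1 - (2/5) * x))
      - (15/4) * (1 - x) ^ 2 + (15/4) * (156/100) * (1 - (2/5) * x) * ((104/100) * (1 - (2/5) * x) ^ 2 - (356/1000)) := by
  nlinarith [mul_nonneg (sub_nonneg.2 hx) (sub_nonneg.2 hx1), mul_nonneg (sub_nonneg.2 hx) (mul_nonneg (sub_nonneg.2 hx) (sub_nonneg.2 hx1)), mul_nonneg (sub_nonneg.2 hx1) (mul_nonneg (sub_nonneg.2 hx) (sub_nonneg.2 hx1)), mul_nonneg (sub_nonneg.2 hx) (mul_nonneg (sub_nonneg.2 hx) (sub_nonneg.2 hx))]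

theorem g1b_4 (x : ℝ) (hx : 0 ≤ x) (hx1 : x ≤ (2/5)) :
    0 ≤ ((2/5) - x) ^ 2 - (2/5) * ((2/5) * (156/100) * (1 - x) * (1 - (2/5) * x))
      - (2/5) * (4 * (1 - x) ^ 2)
      + (2/5) * (4 * (156/100) * (1 - (2/5) * x) * ((104/100) * (1 - (2/5) * x) ^ 2 - (356/1000))) := by
  nlinarith [mul_nonneg hx (sub_nonneg.2 hx1), mul_nonneg hx (mul_nonneg hx (sub_nonneg.2 hx1)), mul_nonneg hx (mul_nonneg (sub_nonneg.2 hx1) (sub_nonneg.2 hx1)), mul_nonneg hx (mul_nonneg hx hx)]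

theorem g2b_4 (x : ℝ) (hx : (2/5) ≤ x) (hx1 : x ≤ 1) :
    0 ≤ - ((2/5) * (156/100) * (1 - x) * (1 - (2/5) * x))
      - 4 * (1 - x) ^ 2 + 4 * (156/100) * (1 - (2/5) * x) * ((104/100) * (1 - (2/5) * x) ^ 2 - (356/1000)) := by
  nlinarith [mul_nonneg (sub_nonneg.2 hx) (sub_nonneg.2 hx1), mul_nonneg (sub_nonneg.2 hx) (mul_nonneg (sub_nonneg.2 hx) (sub_nonneg.2 hx1)), mul_nonneg (sub_nonneg.2 hx1) (mul_nonneg (sub_nonneg.2 hx) (sub_nonneg.2 hx1)), mul_nonneg (sub_nonneg.2 hx) (mul_nonneg (sub_nonneg.2 hx) (sub_nonneg.2 hx))]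

theorem reg_4 : Reg (156/100) (15/4) (104/100) (356/1000) (2/5) (1/2) (1/100) :=
  reg_of (by norm_num) (by norm_num) (by norm_num) (by norm_num) (by norm_num) (by norm_num)
    (by norm_num) (by norm_num) (by norm_num) (by norm_num) (by norm_num) (by norm_num)
    (by norm_num) (by norm_num) (by norm_num) (by norm_num)
    p0_4 p1_4 p2_4 g1a_4 g1b_4 g2a_4 g2b_4

theorem p0_5 (z μ y : ℝ) (hz : 0 ≤ z) (hμ : 0 < μ) (hy : 0 ≤ y) (hy1 : y ≤ 1)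
    (h : (93/100) * y ^ 2 = z + (34/100) + (2/5) * μ) :
    0 ≤ y ^ 2 - (189/100) * z * (1 - (36/100) * (1 - z)) := by
  have hz1 : z ≤ (93/100) - (34/100) - (2/5) * μ := by nlinarith
  have hy2 : y ^ 2 = (z + (34/100) + (2/5) * μ) / (93/100) := by rw [← h]; ring
  rw [hy2]
  nlinarith [mul_nonneg hz hμ.le, mul_nonneg (sub_nonneg.2 hz1) hμ.le, mul_nonneg (sub_nonneg.2 hz1) hz, mul_nonneg (sub_nonneg.2 hz1) (sub_nonneg.2 hz1)]

theorem p1_5 (z μ y : ℝ) (hz : 0 ≤ z) (hμ : 0 < μ) (hy : 0 ≤ y) (hy1 : y ≤ 1)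
    (h : (93/100) * y ^ 2 = z + (34/100) + (2/5) * μ) (hreg : (93/100) ≤ y + (34/100) + (2/5) * μ) :
    (1/100) * μ ≤ (36/10) * (y ^ 2 - (189/100) * z * (1 - (36/100) * (1 - z))) - 4 * μ * z - 2 * (93/100) * y
        + 2 * (z + (34/100) + (2/5) * μ) * ((189/100) * z + μ) := by
  have hz1 : z ≤ (93/100) - (34/100) - (2/5) * μ := by nlinarith
  have hy2 : y ^ 2 = (z + (34/100) + (2/5) * μ) / (93/100) := by rw [← h]; ring
  nlinarith [mul_nonneg hz hμ.le, mul_nonneg (sub_nonneg.2 hz1) hμ.le, mul_nonneg (sub_nonneg.2 hz1) hz, mul_nonneg (sub_nonneg.2 hz1) (sub_nonneg.2 hz1), sq_nonneg (y-1), sq_nonneg (y-4/5)]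

theorem p2_5 (z μ y : ℝ) (hz : 0 ≤ z) (hμ : 0 < μ) (hy : 0 ≤ y) (hy1 : y ≤ 1)
    (h : (93/100) * y ^ 2 = z + (34/100) + (2/5) * μ) (hreg : y + (34/100) + (2/5) * μ ≤ (93/100)) :
    (1/100) * μ ≤ (36/10) * (y ^ 2 - (189/100) * z * (1 - (36/100) * (1 - z))) - 4 * μ * z
        - 2 * y * (y + (34/100) + (2/5) * μ) + 2 * (z + (34/100) + (2/5) * μ) * ((189/100) * z + μ) := by
  have hz1 : z ≤ (93/100) - (34/100) - (2/5) * μ := by nlinarith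
  have hy2 : y ^ 2 = (z + (34/100) + (2/5) * μ) / (93/100) := by rw [← h]; ring
  nlinarith [mul_nonneg hz hμ.le, mul_nonneg (sub_nonneg.2 hz1) hμ.le, mul_nonneg (sub_nonneg.2 hz1) hz, mul_nonneg (sub_nonneg.2 hz1) (sub_nonneg.2 hz1), sq_nonneg (y-1), sq_nonneg (y-1/2), mul_nonneg hμ.le (sq_nonneg (y-1))]

theorem g1a_5 (x : ℝ) (hx : 0 ≤ x) (hx1 : x ≤ (36/100)) :
    0 ≤ ((36/100) - x) ^ 2 - (36/100) * ((36/100) * (189/100) * (1 - x) * (1 - (36/100) * x))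
      - (36/100) * ((36/10) * (1 - x) ^ 2)
      + (36/100) * ((36/10) * (189/100) * (1 - (36/100) * x) * ((93/100) * (1 - (36/100) * x) ^ 2 - (34/100))) := by
  nlinarith [mul_nonneg hx (sub_nonneg.2 hx1), mul_nonneg hx (mul_nonneg hx (sub_nonneg.2 hx1)), mul_nonneg hx (mul_nonneg (sub_nonneg.2 hx1) (sub_nonneg.2 hx1)), mul_nonneg hx (mul_nonneg hx hx)]

theorem g2a_5 (x : ℝ) (hx : (36/100) ≤ x) (hx1 : x ≤ 1) :
    0 ≤ - ((36/100) * (189/100) * (1 - x) * (1 - (36/100) * x))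
      - (36/10) * (1 - x) ^ 2 + (36/10) * (189/100) * (1 - (36/100) * x) * ((93/100) * (1 - (36/100) * x) ^ 2 - (34/100)) := by
  nlinarith [mul_nonneg (sub_nonneg.2 hx) (sub_nonneg.2 hx1), mul_nonneg (sub_nonneg.2 hx) (mul_nonneg (sub_nonneg.2 hx) (sub_nonneg.2 hx1)), mul_nonneg (sub_nonneg.2 hx1) (mul_nonneg (sub_nonneg.2 hx) (sub_nonneg.2 hx1)), mul_nonneg (sub_nonneg.2 hx) (mul_nonneg (sub_nonneg.2 hx) (sub_nonneg.2 hx))]

theorem g1b_5 (x : ℝ) (hx : 0 ≤ x) (hx1 : x ≤ (36/100)) :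
    0 ≤ ((36/100) - x) ^ 2 - (36/100) * ((36/100) * (189/100) * (1 - x) * (1 - (36/100) * x))
      - (36/100) * (4 * (1 - x) ^ 2)
      + (36/100) * (4 * (189/100) * (1 - (36/100) * x) * ((93/100) * (1 - (36/100) * x) ^ 2 - (34/100))) := by
  nlinarith [mul_nonneg hx (sub_nonneg.2 hx1), mul_nonneg hx (mul_nonneg hx (sub_nonneg.2 hx1)), mul_nonneg hx (mul_nonneg (sub_nonneg.2 hx1) (sub_nonneg.2 hx1)), mul_nonneg hx (mul_nonneg hx hx)]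

theorem g2b_5 (x : ℝ) (hx : (36/100) ≤ x) (hx1 : x ≤ 1) :
    0 ≤ - ((36/100) * (189/100) * (1 - x) * (1 - (36/100) * x))
      - 4 * (1 - x) ^ 2 + 4 * (189/100) * (1 - (36/100) * x) * ((93/100) * (1 - (36/100) * x) ^ 2 - (34/100)) := by
  nlinarith [mul_nonneg (sub_nonneg.2 hx) (sub_nonneg.2 hx1), mul_nonneg (sub_nonneg.2 hx) (mul_nonneg (sub_nonneg.2 hx) (sub_nonneg.2 hx1)), mul_nonneg (sub_nonneg.2 hx1) (mul_nonneg (sub_nonneg.2 hx) (sub_nonneg.2 hx1)), mul_nonneg (sub_nonneg.2 hx) (mul_nonneg (sub_nonneg.2 hx) (sub_nonneg.2 hx))]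

theorem reg_5 : Reg (189/100) (36/10) (93/100) (34/100) (36/100) (2/5) (1/100) :=
  reg_of (by norm_num) (by norm_num) (by norm_num) (by norm_num) (by norm_num) (by norm_num)
    (by norm_num) (by norm_num) (by norm_num) (by norm_num) (by norm_num) (by norm_num)
    (by norm_num) (by norm_num) (by norm_num) (by norm_num)
    p0_5 p1_5 p2_5 g1a_5 g1b_5 g2a_5 g2b_5

theorem p0_6 (z μ y : ℝ) (hz : 0 ≤ z) (hμ : 0 < μ) (hy : 0 ≤ y) (hy1 : y ≤ 1)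
    (h : (80/100) * y ^ 2 = z + (345/1000) + (1/4) * μ) :
    0 ≤ y ^ 2 - (259/100) * z * (1 - (3/10) * (1 - z)) := by
  have hz1 : z ≤ (80/100) - (345/1000) - (1/4) * μ := by nlinarith
  have hy2 : y ^ 2 = (z + (345/1000) + (1/4) * μ) / (80/100) := by rw [← h]; ring
  rw [hy2]
  nlinarith [mul_nonneg hz hμ.le, mul_nonneg (sub_nonneg.2 hz1) hμ.le, mul_nonneg (sub_nonneg.2 hz1) hz, mul_nonneg (sub_nonneg.2 hz1) (sub_nonneg.2 hz1)]

theorem p1_6 (z μ y : ℝ) (hz : 0 ≤ z) (hμ : 0 < μ) (hy : 0 ≤ y) (hy1 : y ≤ 1)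
    (h : (80/100) * y ^ 2 = z + (345/1000) + (1/4) * μ) (hreg : (80/100) ≤ y + (345/1000) + (1/4) * μ) :
    (1/100) * μ ≤ (35/10) * (y ^ 2 - (259/100) * z * (1 - (3/10) * (1 - z))) - 4 * μ * z - 2 * (80/100) * y
        + 2 * (z + (345/1000) + (1/4) * μ) * ((259/100) * z + μ) := by
  have hz1 : z ≤ (80/100) - (345/1000) - (1/4) * μ := by nlinarith
  have hy2 : y ^ 2 = (z + (345/1000) + (1/4) * μ) / (80/100) := by rw [← h]; ring
  nlinarith [mul_nonneg hz hμ.le, mul_nonneg (sub_nonneg.2 hz1) hμ.le, mul_nonneg (sub_nonneg.2 hz1) hz, mul_nonneg (sub_nonneg.2 hz1) (sub_nonneg.2 hz1), sq_nonneg (y-1), sq_nonneg (y-4/5)]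

theorem p2_6 (z μ y : ℝ) (hz : 0 ≤ z) (hμ : 0 < μ) (hy : 0 ≤ y) (hy1 : y ≤ 1)
    (h : (80/100) * y ^ 2 = z + (345/1000) + (1/4) * μ) (hreg : y + (345/1000) + (1/4) * μ ≤ (80/100)) :
    (1/100) * μ ≤ (35/10) * (y ^ 2 - (259/100) * z * (1 - (3/10) * (1 - z))) - 4 * μ * z
        - 2 * y * (y + (345/1000) + (1/4) * μ) + 2 * (z + (345/1000) + (1/4) * μ) * ((259/100) * z + μ) := by
  have hz1 : z ≤ (80/100) - (345/1000) - (1/4) * μ := by nlinarith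
  have hy2 : y ^ 2 = (z + (345/1000) + (1/4) * μ) / (80/100) := by rw [← h]; ring
  nlinarith [mul_nonneg hz hμ.le, mul_nonneg (sub_nonneg.2 hz1) hμ.le, mul_nonneg (sub_nonneg.2 hz1) hz, mul_nonneg (sub_nonneg.2 hz1) (sub_nonneg.2 hz1), sq_nonneg (y-1), sq_nonneg (y-1/2), mul_nonneg hμ.le (sq_nonneg (y-1))]

theorem g1a_6 (x : ℝ) (hx : 0 ≤ x) (hx1 : x ≤ (3/10)) :
    0 ≤ ((3/10) - x) ^ 2 - (3/10) * ((3/10) * (259/100) * (1 - x) * (1 - (3/10) * x))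
      - (3/10) * ((35/10) * (1 - x) ^ 2)
      + (3/10) * ((35/10) * (259/100) * (1 - (3/10) * x) * ((80/100) * (1 - (3/10) * x) ^ 2 - (345/1000))) := by
  nlinarith [mul_nonneg hx (sub_nonneg.2 hx1), mul_nonneg hx (mul_nonneg hx (sub_nonneg.2 hx1)), mul_nonneg hx (mul_nonneg (sub_nonneg.2 hx1) (sub_nonneg.2 hx1)), mul_nonneg hx (mul_nonneg hx hx)]

theorem g2a_6 (x : ℝ) (hx : (3/10) ≤ x) (hx1 : x ≤ 1) :
    0 ≤ - ((3/10) * (259/100) * (1 - x) * (1 - (3/10) * x))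
      - (35/10) * (1 - x) ^ 2 + (35/10) * (259/100) * (1 - (3/10) * x) * ((80/100) * (1 - (3/10) * x) ^ 2 - (345/1000)) := by
  nlinarith [mul_nonneg (sub_nonneg.2 hx) (sub_nonneg.2 hx1), mul_nonneg (sub_nonneg.2 hx) (mul_nonneg (sub_nonneg.2 hx) (sub_nonneg.2 hx1)), mul_nonneg (sub_nonneg.2 hx1) (mul_nonneg (sub_nonneg.2 hx) (sub_nonneg.2 hx1)), mul_nonneg (sub_nonneg.2 hx) (mul_nonneg (sub_nonneg.2 hx) (sub_nonneg.2 hx))]

theorem g1b_6 (x : ℝ) (hx : 0 ≤ x) (hx1 : x ≤ (3/10)) :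
    0 ≤ ((3/10) - x) ^ 2 - (3/10) * ((3/10) * (259/100) * (1 - x) * (1 - (3/10) * x))
      - (3/10) * (4 * (1 - x) ^ 2)
      + (3/10) * (4 * (259/100) * (1 - (3/10) * x) * ((80/100) * (1 - (3/10) * x) ^ 2 - (345/1000))) := by
  nlinarith [mul_nonneg hx (sub_nonneg.2 hx1), mul_nonneg hx (mul_nonneg hx (sub_nonneg.2 hx1)), mul_nonneg hx (mul_nonneg (sub_nonneg.2 hx1) (sub_nonneg.2 hx1)), mul_nonneg hx (mul_nonneg hx hx)]

theorem g2b_6 (x : ℝ) (hx : (3/10) ≤ x) (hx1 : x ≤ 1) :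
    0 ≤ - ((3/10) * (259/100) * (1 - x) * (1 - (3/10) * x))
      - 4 * (1 - x) ^ 2 + 4 * (259/100) * (1 - (3/10) * x) * ((80/100) * (1 - (3/10) * x) ^ 2 - (345/1000)) := by
  nlinarith [mul_nonneg (sub_nonneg.2 hx) (sub_nonneg.2 hx1), mul_nonneg (sub_nonneg.2 hx) (mul_nonneg (sub_nonneg.2 hx) (sub_nonneg.2 hx1)), mul_nonneg (sub_nonneg.2 hx1) (mul_nonneg (sub_nonneg.2 hx) (sub_nonneg.2 hx1)), mul_nonneg (sub_nonneg.2 hx) (mul_nonneg (sub_nonneg.2 hx) (sub_nonneg.2 hx))]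

theorem reg_6 : Reg (259/100) (35/10) (80/100) (345/1000) (3/10) (1/4) (1/100) :=
  reg_of (by norm_num) (by norm_num) (by norm_num) (by norm_num) (by norm_num) (by norm_num)
    (by norm_num) (by norm_num) (by norm_num) (by norm_num) (by norm_num) (by norm_num)
    (by norm_num) (by norm_num) (by norm_num) (by norm_num)
    p0_6 p1_6 p2_6 g1a_6 g1b_6 g2a_6 g2b_6

theorem p0_7 (z μ y : ℝ) (hz : 0 ≤ z) (hμ : 0 < μ) (hy : 0 ≤ y) (hy1 : y ≤ 1)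
    (h : (60/100) * y ^ 2 = z + (21/100) + (1/10) * μ) :
    0 ≤ y ^ 2 - (32/10) * z * (1 - (345/1000) * (1 - z)) := by
  have hz1 : z ≤ (60/100) - (21/100) - (1/10) * μ := by nlinarith
  have hy2 : y ^ 2 = (z + (21/100) + (1/10) * μ) / (60/100) := by rw [← h]; ring
  rw [hy2]
  nlinarith [mul_nonneg hz hμ.le, mul_nonneg (sub_nonneg.2 hz1) hμ.le, mul_nonneg (sub_nonneg.2 hz1) hz, mul_nonneg (sub_nonneg.2 hz1) (sub_nonneg.2 hz1)]

theorem p1_7 (z μ y : ℝ) (hz : 0 ≤ z) (hμ : 0 < μ) (hy : 0 ≤ y) (hy1 : y ≤ 1)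
    (h : (60/100) * y ^ 2 = z + (21/100) + (1/10) * μ) (hreg : (60/100) ≤ y + (21/100) + (1/10) * μ) :
    (1/100) * μ ≤ (37/10) * (y ^ 2 - (32/10) * z * (1 - (345/1000) * (1 - z))) - 4 * μ * z - 2 * (60/100) * y
        + 2 * (z + (21/100) + (1/10) * μ) * ((32/10) * z + μ) := by
  have hz1 : z ≤ (60/100) - (21/100) - (1/10) * μ := by nlinarith
  have hy2 : y ^ 2 = (z + (21/100) + (1/10) * μ) / (60/100) := by rw [← h]; ring
  nlinarith [mul_nonneg hz hμ.le, mul_nonneg (sub_nonneg.2 hz1) hμ.le, mul_nonneg (sub_nonneg.2 hz1) hz, mul_nonneg (sub_nonneg.2 hz1) (sub_nonneg.2 hz1), sq_nonneg (y-1), sq_nonneg (y-4/5)]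

theorem p2_7 (z μ y : ℝ) (hz : 0 ≤ z) (hμ : 0 < μ) (hy : 0 ≤ y) (hy1 : y ≤ 1)
    (h : (60/100) * y ^ 2 = z + (21/100) + (1/10) * μ) (hreg : y + (21/100) + (1/10) * μ ≤ (60/100)) :
    (1/100) * μ ≤ (37/10) * (y ^ 2 - (32/10) * z * (1 - (345/1000) * (1 - z))) - 4 * μ * z
        - 2 * y * (y + (21/100) + (1/10) * μ) + 2 * (z + (21/100) + (1/10) * μ) * ((32/10) * z + μ) := by
  have hz1 : z ≤ (60/100) - (21/100) - (1/10) * μ := by nlinarith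
  have hy2 : y ^ 2 = (z + (21/100) + (1/10) * μ) / (60/100) := by rw [← h]; ring
  nlinarith [mul_nonneg hz hμ.le, mul_nonneg (sub_nonneg.2 hz1) hμ.le, mul_nonneg (sub_nonneg.2 hz1) hz, mul_nonneg (sub_nonneg.2 hz1) (sub_nonneg.2 hz1), sq_nonneg (y-1), sq_nonneg (y-1/2), mul_nonneg hμ.le (sq_nonneg (y-1))]

theorem g1a_7 (x : ℝ) (hx : 0 ≤ x) (hx1 : x ≤ (345/1000)) :
    0 ≤ ((345/1000) - x) ^ 2 - (345/1000) * ((345/1000) * (32/10) * (1 - x) * (1 - (345/1000) * x))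
      - (345/1000) * ((37/10) * (1 - x) ^ 2)
      + (345/1000) * ((37/10) * (32/10) * (1 - (345/1000) * x) * ((60/100) * (1 - (345/1000) * x) ^ 2 - (21/100))) := by
  nlinarith [mul_nonneg hx (sub_nonneg.2 hx1), mul_nonneg hx (mul_nonneg hx (sub_nonneg.2 hx1)), mul_nonneg hx (mul_nonneg (sub_nonneg.2 hx1) (sub_nonneg.2 hx1)), mul_nonneg hx (mul_nonneg hx hx)]

theorem g2a_7 (x : ℝ) (hx : (345/1000) ≤ x) (hx1 : x ≤ 1) :
    0 ≤ - ((345/1000) * (32/10) * (1 - x) * (1 - (345/1000) * x))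
      - (37/10) * (1 - x) ^ 2 + (37/10) * (32/10) * (1 - (345/1000) * x) * ((60/100) * (1 - (345/1000) * x) ^ 2 - (21/100)) := by
  nlinarith [mul_nonneg (sub_nonneg.2 hx) (sub_nonneg.2 hx1), mul_nonneg (sub_nonneg.2 hx) (mul_nonneg (sub_nonneg.2 hx) (sub_nonneg.2 hx1)), mul_nonneg (sub_nonneg.2 hx1) (mul_nonneg (sub_nonneg.2 hx) (sub_nonneg.2 hx1)), mul_nonneg (sub_nonneg.2 hx) (mul_nonneg (sub_nonneg.2 hx) (sub_nonneg.2 hx))]

theorem g1b_7 (x : ℝ) (hx : 0 ≤ x) (hx1 : x ≤ (345/1000)) :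
    0 ≤ ((345/1000) - x) ^ 2 - (345/1000) * ((345/1000) * (32/10) * (1 - x) * (1 - (345/1000) * x))
      - (345/1000) * (4 * (1 - x) ^ 2)
      + (345/1000) * (4 * (32/10) * (1 - (345/1000) * x) * ((60/100) * (1 - (345/1000) * x) ^ 2 - (21/100))) := by
  nlinarith [mul_nonneg hx (sub_nonneg.2 hx1), mul_nonneg hx (mul_nonneg hx (sub_nonneg.2 hx1)), mul_nonneg hx (mul_nonneg (sub_nonneg.2 hx1) (sub_nonneg.2 hx1)), mul_nonneg hx (mul_nonneg hx hx)]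

theorem g2b_7 (x : ℝ) (hx : (345/1000) ≤ x) (hx1 : x ≤ 1) :
    0 ≤ - ((345/1000) * (32/10) * (1 - x) * (1 - (345/1000) * x))
      - 4 * (1 - x) ^ 2 + 4 * (32/10) * (1 - (345/1000) * x) * ((60/100) * (1 - (345/1000) * x) ^ 2 - (21/100)) := by
  nlinarith [mul_nonneg (sub_nonneg.2 hx) (sub_nonneg.2 hx1), mul_nonneg (sub_nonneg.2 hx) (mul_nonneg (sub_nonneg.2 hx) (sub_nonneg.2 hx1)), mul_nonneg (sub_nonneg.2 hx1) (mul_nonneg (sub_nonneg.2 hx) (sub_nonneg.2 hx1)), mul_nonneg (sub_nonneg.2 hx) (mul_nonneg (sub_nonneg.2 hx) (sub_nonneg.2 hx))]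

theorem reg_7 : Reg (32/10) (37/10) (60/100) (21/100) (345/1000) (1/10) (1/100) :=
  reg_of (by norm_num) (by norm_num) (by norm_num) (by norm_num) (by norm_num) (by norm_num)
    (by norm_num) (by norm_num) (by norm_num) (by norm_num) (by norm_num) (by norm_num)
    (by norm_num) (by norm_num) (by norm_num) (by norm_num)
    p0_7 p1_7 p2_7 g1a_7 g1b_7 g2a_7 g2b_7

/-- For every `κ ∈ (1, 4]` there is an invariant region with `K < κ` and `κ R₀³ ≤ 64 K`. -/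
theorem reg_exists (κ : ℝ) (h1 : 1 < κ) (h4 : κ ≤ 4) :
    ∃ K R₀ α b q c ε : ℝ, Reg K R₀ α b q c ε ∧ K < κ ∧ κ * R₀ ^ 3 ≤ 64 * K := by
  rcases le_total κ (1075/1000) with h | h
  · exact ⟨_, _, _, _, _, _, _, reg_1, by linarith, by norm_num; linarith⟩
  rcases le_total κ (1295/1000) with h | h
  · exact ⟨_, _, _, _, _, _, _, reg_2, by linarith, by norm_num; linarith⟩
  rcases le_total κ (1563/1000) with h | h
  · exact ⟨_, _, _, _, _, _, _, reg_3, by linarith, by norm_num; linarith⟩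
  rcases le_total κ (1892/1000) with h | h
  · exact ⟨_, _, _, _, _, _, _, reg_4, by linarith, by norm_num; linarith⟩
  rcases le_total κ (2592/1000) with h | h
  · exact ⟨_, _, _, _, _, _, _, reg_5, by linarith, by norm_num; linarith⟩
  rcases le_total κ (35/10) with h | h
  · exact ⟨_, _, _, _, _, _, _, reg_6, by linarith, by norm_num; linarith⟩
  exact ⟨_, _, _, _, _, _, _, reg_7, by linarith, by norm_num; linarith⟩

end Pool.Agent.N167.DY
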