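import Pool.Agent.N167.DY.Sub

namespace Pool.Agent.N167.DY

open Set Filter

/-- amplitude levels for `β = 3`: `max (A - δ n) ν` -/
noncomputable def lev (A ν : ℝ) (n : ℕ) : ℝ := max (A - ν / 10000 * n) ν

theorem lev_ge (A ν : ℝ) (n : ℕ) : ν ≤ lev A ν n := le_max_right _ _

theorem lev_anti {A ν : ℝ} (hν : 0 < ν) (n : ℕ) : lev A ν (n + 1) ≤ lev A ν n := by
  unfold lev
  apply max_le_max _ le_rfl
  push_cast
  nlinarith

theorem lev_step {A ν : ℝ} (hν : 0 < ν) (n : ℕ) : lev A ν n ≤ lev A ν (n + 1) + ν / 10000 := by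
  unfold lev
  apply max_le
  · have := le_max_left (A - ν / 10000 * ((n + 1 : ℕ) : ℝ)) ν
    push_cast at this ⊢
    linarith
  · have := le_max_right (A - ν / 10000 * ((n + 1 : ℕ) : ℝ)) ν
    linarith

theorem lev_conv {A ν : ℝ} (n : ℕ) : 2 * lev A ν (n + 1) ≤ lev A ν n + lev A ν (n + 2) := by
  have h1 : lev A ν (n + 1) ≤ (lev A ν n + lev A ν (n + 2)) / 2 := by
    have a1 := le_max_left (A - ν / 10000 * ((n : ℕ) : ℝ)) ν
    have a2 := le_max_right (A - ν / 10000 * ((n : ℕ) : ℝ)) ν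
    have b1 := le_max_left (A - ν / 10000 * ((n + 2 : ℕ) : ℝ)) ν
    have b2 := le_max_right (A - ν / 10000 * ((n + 2 : ℕ) : ℝ)) ν
    unfold lev
    apply max_le
    · push_cast at *
      linarith
    · linarith
  linarith

theorem crit {ν : ℝ} (hν : 0 < ν) {x F : ℕ → ℝ} {f : ℕ → ℝ → ℝ}
    (hx : ∀ n, 0 ≤ x n) (hxR : Rapid x) (hFR : Rapid F) (hfc : ∀ n, ContinuousOn (f n) (Ici 0))
    (hf : ∀ n, ∀ t, 0 ≤ t → 0 ≤ f n t ∧ f n t ≤ F n) : Concl 3 ν f x := by
  have hReg := reg_1
  obtain ⟨hm0, hm1, hm2⟩ := m0_spec hReg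
  set m₀ := min (1 - (5/9 : ℝ)) ((3/100 : ℝ) / 2) with hm₀
  obtain ⟨Cx, hCx0, hCx⟩ := rapid_bound hxR (show (0:ℝ) < 1/4 by norm_num)
  obtain ⟨CF, hCF0, hCF⟩ := rapid_bound hFR (show (0:ℝ) < 1/4 by norm_num)
  set C : ℝ := Cx / m₀ + 1600 * CF / ν with hC
  have hC0 : 0 ≤ C := by positivity
  obtain ⟨N₁, hN₁⟩ : ∃ N₁ : ℕ, C * (1/2) ^ N₁ ≤ ν := by
    have h2 : Tendsto (fun n : ℕ => C * (1/2 : ℝ) ^ n) atTop (nhds (C * 0)) :=
      (tendsto_pow_atTop_nhds_zero_of_lt_one (by norm_num) (by norm_num)).const_mul C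
    rw [mul_zero] at h2
    obtain ⟨N₀, hN₀⟩ := eventually_atTop.1 (h2.eventually_le_const hν)
    exact ⟨N₀, hN₀ N₀ le_rfl⟩
  set A : ℝ := C + ν / 10000 * (N₁ + 1) with hA
  have hCa : ∀ n : ℕ, C * (1/2) ^ n ≤ lev A ν (n + 1) := by
    intro n
    rcases le_or_gt N₁ n with h | h
    · calc C * (1/2) ^ n ≤ C * (1/2) ^ N₁ :=
            mul_le_mul_of_nonneg_left (pow_le_pow_of_le_one (by norm_num) (by norm_num) h) hC0
        _ ≤ ν := hN₁
        _ ≤ _ := lev_ge _ _ _
    · calc C * (1/2) ^ n ≤ C * 1 :=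
            mul_le_mul_of_nonneg_left (pow_le_one₀ (by norm_num) (by norm_num)) hC0
        _ ≤ A - ν / 10000 * ((n + 1 : ℕ) : ℝ) := by
            have h1 : ((n + 1 : ℕ) : ℝ) ≤ N₁ := by exact_mod_cast h
            have h2 : ν / 10000 * ((n + 1 : ℕ) : ℝ) ≤ ν / 10000 * N₁ :=
              mul_le_mul_of_nonneg_left h1 (by positivity)
            rw [hA]
            nlinarith
        _ ≤ _ := le_max_left _ _
  set l := lev A ν with hl
  have hlpos : ∀ n, 0 < l n := fun n => lt_of_lt_of_le hν (lev_ge _ _ _)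
  have hkk : ∀ n : ℕ, kk 3 n = 8 ^ n := by
    intro n
    rw [kk_eq]
    norm_num
  have h24 : ∀ n : ℕ, (4:ℝ) ^ n = 2 ^ n * 2 ^ n := fun n => by rw [← mul_pow]; norm_num
  have h28 : ∀ n : ℕ, (8:ℝ) ^ n = 2 ^ n * 2 ^ n * 2 ^ n := fun n => by
    rw [← mul_pow, ← mul_pow]; norm_num
  have hAmp : Amp 3 ν 1 (39/10) (103/100) (17/20) (1/100) (fun n => l (n + 1) * (1/2) ^ n)
      (fun n => l (n + 1) * l (n + 2) / l n ^ 2) (fun n => 2 * ν * l (n + 1) / l n ^ 2)
      (fun n => 4 ^ n / 2 * l n ^ 2 / l (n + 1)) := by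
    constructor
    · intro n; have := hlpos (n + 1); positivity
    · intro n; have := hlpos (n + 1); have := hlpos n; positivity
    · intro n; have := hlpos (n + 1); have := hlpos n; positivity
    · intro n; have := hlpos (n + 1); have := hlpos n; have := hlpos (n + 2); positivity
    · intro n
      have := hlpos (n + 1)
      have := hlpos (n + 1 + 1)
      rw [hkk, h28, h24, one_div, inv_pow, inv_pow, pow_succ (2:ℝ) n]
      field_simp
      try ring
    · intro n
      have := hlpos (n + 1)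
      have := hlpos (n + 1 + 1)
      have := hlpos n
      rw [hkk, h28, h24, one_div, inv_pow, pow_succ (2:ℝ) n]
      field_simp
    · intro n
      have := hlpos (n + 1)
      have := hlpos n
      field_simp
    · intro n
      have hp := hlpos n
      have hy := hlpos (n + 1)
      have hm := hlpos (n + 1 + 1)
      have h1 := lev_step (A := A) hν n
      have h2 := lev_anti (A := A) hν (n + 1)
      have h3 := lev_ge A ν (n + 1)
      rw [← hl] at h1 h2 h3
      have h4 : 39/10 * l n ^ 2 ≤ 4 * l (n + 1) ^ 2 := by nlinarith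
      have h5 : 39/10 * (4 ^ n / 2 * l n ^ 2 / l (n + 1)) = 4 ^ n / 2 * (39/10 * l n ^ 2) / l (n + 1) := by
        ring
      rw [h5, pow_succ (4:ℝ) n, div_le_div_iff₀ hy hm]
      have h6 : 4 ^ n / 2 * (39 / 10 * l n ^ 2) * l (n + 1 + 1) ≤
          4 ^ n / 2 * (4 * l (n + 1) ^ 2) * l (n + 1) := by
        apply mul_le_mul _ h2 hm.le (by positivity)
        exact mul_le_mul_of_nonneg_left h4 (by positivity)
      linarith
    · intro n
      have hp := hlpos n
      have hy := hlpos (n + 1)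
      have hm := hlpos (n + 1 + 1)
      have h1 := lev_step (A := A) hν n
      have h2 := lev_anti (A := A) hν n
      have h3 := lev_ge A ν (n + 1)
      have h7 := lev_conv (A := A) (ν := ν) n
      rw [← hl] at h1 h2 h3 h7
      have h8 : l (n + 1) ^ 3 ≤ l (n + 1 + 1) * l n ^ 2 := by
        have h9 : 2 * l (n + 1) - l n ≤ l (n + 1 + 1) := by linarith
        have h10 : (2 * l (n + 1) - l n) * l n ^ 2 ≤ l (n + 1 + 1) * l n ^ 2 :=
          mul_le_mul_of_nonneg_right h9 (by positivity)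
        refine le_trans ?_ h10
        obtain ⟨e, he⟩ : ∃ e, l n = l (n + 1) + e := ⟨l n - l (n + 1), by ring⟩
        have he0 : 0 ≤ e := by linarith
        have he1 : e ≤ l (n + 1) / 2 := by linarith
        rw [he]
        have e1 : (2 * l (n + 1) - (l (n + 1) + e)) * (l (n + 1) + e) ^ 2 - l (n + 1) ^ 3
            = e * (l (n + 1) ^ 2 - l (n + 1) * e - e ^ 2) := by ring
        have e2 : 0 ≤ l (n + 1) ^ 2 - l (n + 1) * e - e ^ 2 := by nlinarith
        have e3 := mul_nonneg he0 e2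
        linarith
      rw [pow_succ (4:ℝ) n, div_le_iff₀ hm]
      have h11 : 4 * (4 ^ n / 2 * l n ^ 2 / l (n + 1)) * l (n + 1 + 1)
          = 4 ^ n * 4 / 2 * (l (n + 1 + 1) * l n ^ 2) / l (n + 1) := by ring
      rw [h11, le_div_iff₀ hy]
      have h12 := mul_le_mul_of_nonneg_left h8 (by positivity : (0:ℝ) ≤ 4 ^ n * 4 / 2)
      linarith
    · intro n
      have hp := hlpos n
      have hy := hlpos (n + 1)
      have h1 := lev_anti (A := A) hν n
      have h2 := lev_anti (A := A) hν (n + 1)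
      rw [← hl] at h1 h2
      have hm := hlpos (n + 2)
      have h3 : l (n + 2) ≤ l n := le_trans h2 h1
      rw [div_le_one (by positivity)]
      nlinarith
    · intro n
      have hp := hlpos n
      have hy := hlpos (n + 1)
      have hm := hlpos (n + 2)
      have h1 := lev_step (A := A) hν n
      have h2 := lev_step (A := A) hν (n + 1)
      have h3 := lev_ge A ν (n + 1)
      rw [← hl] at h1 h2 h3
      rw [le_div_iff₀ (by positivity)]
      have h4 : (1 - 1 / 100 / 16 * (2 * ν * l (n + 1) / l n ^ 2)) * l n ^ 2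
          = l n ^ 2 - ν * l (n + 1) / 800 := by field_simp; ring
      rw [h4]
      have h5 : l n ^ 2 ≤ (l (n + 1) + ν / 10000) ^ 2 := pow_le_pow_left₀ hp.le h1 2
      have h6 : l (n + 1) * (l (n + 1) - ν / 10000) ≤ l (n + 1) * l (n + 2) :=
        mul_le_mul_of_nonneg_left (by linarith) hy.le
      nlinarith
    · intro n
      have hp := hlpos n
      have hy := hlpos (n + 1)
      have hm := hlpos (n + 1 + 1)
      have hk := hlpos (n + 1 + 2)
      have h1 := lev_step (A := A) hν n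
      have h2 := lev_step (A := A) hν (n + 1)
      have h2' := lev_step (A := A) hν (n + 1 + 1)
      have h3 := lev_ge A ν (n + 1)
      rw [← hl] at h1 h2 h3 h2'
      rw [le_div_iff₀ (by positivity)]
      have h7 : l (n + 1) - ν / 10000 ≤ l (n + 1 + 1) := by linarith
      have h8 : l (n + 1) - 2 * (ν / 10000) ≤ l (n + 1 + 2) := by linarith
      have h9 : (l (n + 1) - ν / 10000) * (l (n + 1) - 2 * (ν / 10000)) ≤
          l (n + 1 + 1) * l (n + 1 + 2) := mul_le_mul h7 h8 (by linarith) hm.le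
      have h5 : l n ^ 2 ≤ 2 * l (n + 1) ^ 2 := by
        have := pow_le_pow_left₀ hp.le h1 2
        nlinarith
      have h10 : ν / l (n + 1) ≤ 2 * ν * l (n + 1) / l n ^ 2 := by
        rw [div_le_div_iff₀ hy (by positivity)]
        nlinarith
      have h11 : (1 - 1 / 100 / 16 * (2 * ν * l (n + 1) / l n ^ 2)) * l (n + 1) ^ 2
          ≤ (1 - 1 / 100 / 16 * (ν / l (n + 1))) * l (n + 1) ^ 2 := by
        apply mul_le_mul_of_nonneg_right _ (by positivity)
        linarith
      have h12 : (1 - 1 / 100 / 16 * (ν / l (n + 1))) * l (n + 1) ^ 2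
          = l (n + 1) ^ 2 - ν * l (n + 1) / 1600 := by field_simp; ring
      rw [h12] at h11
      refine le_trans h11 (le_trans ?_ h9)
      nlinarith
  refine main_of (θ := 1 / 2) (F := F) hReg hAmp hν ?_ hm0.le hm1 hm2 hx ?_ ?_ (by norm_num) ?_
    hxR hFR hfc hf
  · obtain ⟨N₀, hN₀⟩ := exists_nat_ge ((A - ν) / (ν / 10000))
    refine ⟨N₀, fun n hn => ?_⟩
    have hc : ∀ m, N₀ ≤ m → l m = ν := by
      intro m hm
      rw [hl]
      unfold lev
      apply max_eq_right
      rw [div_le_iff₀ (by positivity)] at hN₀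
      have : (N₀ : ℝ) ≤ m := by exact_mod_cast hm
      nlinarith
    rw [hc n hn, hc (n + 1) (by omega)]
    have : 2 * ν * ν / ν ^ 2 = 2 := by field_simp
    rw [this]
    norm_num
  · intro n
    have h1 := hCx n
    have h2 := hCa n
    have h3 : Cx ≤ m₀ * C := by
      have e : m₀ * C = Cx + m₀ * (1600 * CF / ν) := by rw [hC]; field_simp
      have : 0 ≤ m₀ * (1600 * CF / ν) := by positivity
      linarith
    have h4 : ((1:ℝ)/4) ^ n = (1/2) ^ n * (1/2) ^ n := by rw [← mul_pow]; norm_num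
    rw [h4] at h1
    have h5 : (0:ℝ) < (1/2) ^ n := by positivity
    calc x n ≤ Cx * ((1/2) ^ n * (1/2) ^ n) := h1
      _ ≤ m₀ * C * ((1/2) ^ n * (1/2) ^ n) := mul_le_mul_of_nonneg_right h3 (by positivity)
      _ = m₀ * ((C * (1/2) ^ n) * (1/2) ^ n) := by ring
      _ ≤ m₀ * (l (n + 1) * (1/2) ^ n) := by
        apply mul_le_mul_of_nonneg_left _ hm0.le
        exact mul_le_mul_of_nonneg_right h2 h5.le
  · intro n
    have h1 := hCF n
    have h2 := hCa n
    have h3 : CF ≤ ν / 1600 * C := by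
      have e : ν / 1600 * C = CF + ν / 1600 * (Cx / m₀) := by rw [hC]; field_simp; ring
      have : 0 ≤ ν / 1600 * (Cx / m₀) := by positivity
      linarith
    have h4 : ((1:ℝ)/4) ^ n = (1/2) ^ n * (1/2) ^ n := by rw [← mul_pow]; norm_num
    rw [h4] at h1
    have h5 : (0:ℝ) < (1/2) ^ n := by positivity
    have h6 : (1:ℝ) ≤ 4 ^ n := one_le_pow₀ (by norm_num)
    calc F n ≤ CF * ((1/2) ^ n * (1/2) ^ n) := h1
      _ ≤ ν / 1600 * C * ((1/2) ^ n * (1/2) ^ n) := mul_le_mul_of_nonneg_right h3 (by positivity)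
      _ = ν / 1600 * ((C * (1/2) ^ n) * (1/2) ^ n) := by ring
      _ ≤ ν / 1600 * (l (n + 1) * (1/2) ^ n) := by
        apply mul_le_mul_of_nonneg_left _ (by positivity)
        exact mul_le_mul_of_nonneg_right h2 h5.le
      _ ≤ 1 / 100 / 16 * (ν * 4 ^ n) * (l (n + 1) * (1/2) ^ n) := by
        have h7 : 0 ≤ ν / 1600 * (l (n + 1) * (1/2) ^ n) := by
          have := hlpos (n + 1)
          positivity
        have h8 : 1 / 100 / 16 * (ν * 4 ^ n) * (l (n + 1) * (1/2) ^ n)
          = ν / 1600 * (l (n + 1) * (1/2) ^ n) * 4 ^ n := by ring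
        rw [h8]
        nlinarith
  · obtain ⟨N₀, hN₀⟩ := exists_nat_ge ((A - ν) / (ν / 10000))
    refine ⟨N₀, fun n hn => ?_⟩
    have hc : ∀ m, N₀ ≤ m → l m = ν := by
      intro m hm
      rw [hl]
      unfold lev
      apply max_eq_right
      rw [div_le_iff₀ (by positivity)] at hN₀
      have : (N₀ : ℝ) ≤ m := by exact_mod_cast hm
      nlinarith
    rw [hc (n + 1) (by omega), hkk, h28, pow_succ (4:ℝ) n, h24, one_div, inv_pow]
    have e : (2:ℝ) ^ ((3:ℝ) - 2) = 2 := by norm_num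
    rw [e]
    field_simp
    norm_num

end Pool.Agent.N167.DY
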