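import Mathlib

/-!
# The dyadic (Desnyansky–Novikov / Katz–Pavlović) model of the Navier–Stokes equations

`X_n' = f_n - ν 4^n X_n + 2^{β (n-1)} X_{n-1}^2 - 2^{β n} X_n X_{n+1}`, `n ≥ 0`, `X_{-1} = 0`.
-/

namespace Pool.Agent.N167.DY

/-- The coefficient `2^{β n}` of the nonlinear term on shell `n`. -/
noncomputable def kk (β : ℝ) (n : ℕ) : ℝ := (2 : ℝ) ^ (β * (n : ℝ))

/-- The flux `2^{β (n-1)} X_{n-1}^2` received by shell `n` (zero for `n = 0`). -/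
noncomputable def inflow (β : ℝ) (X : ℕ → ℝ) : ℕ → ℝ
  | 0 => 0
  | n + 1 => kk β n * X n ^ 2

/-- The right-hand side of the dyadic Navier–Stokes system on shell `n`:
`f_n - ν 4^n X_n + 2^{β (n-1)} X_{n-1}^2 - 2^{β n} X_n X_{n+1}`. -/
noncomputable def rhs (β ν : ℝ) (f X : ℕ → ℝ) (n : ℕ) : ℝ :=
  f n - ν * 4 ^ n * X n + inflow β X n - kk β n * X n * X (n + 1)

/-- `X` is a solution on `[0, ∞)` (component by component) of the dyadic Navier–Stokes system with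
force `f` and initial datum `x`. -/
def IsSol (β ν : ℝ) (f : ℕ → ℝ → ℝ) (x : ℕ → ℝ) (X : ℕ → ℝ → ℝ) : Prop :=
  (∀ n, X n 0 = x n) ∧
  ∀ n, ∀ t, 0 ≤ t →
    HasDerivWithinAt (X n) (rhs β ν (fun m => f m t) (fun m => X m t) n) (Set.Ici 0) t

/-- Rapidly decreasing sequence: `sup_n 2^{s n} a_n < ∞` for every real `s`. -/
def Rapid (a : ℕ → ℝ) : Prop := ∀ s : ℝ, ∃ C : ℝ, ∀ n : ℕ, (2 : ℝ) ^ (s * (n : ℝ)) * a n ≤ C

/-- Truncation to the interval `[0, A]`. -/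
noncomputable def clamp (A x : ℝ) : ℝ := max 0 (min x A)

/-- `X` solves on `[0, T]` the equations of the shells `n ≤ N` (shell `N` involves `X (N+1)`). -/
def SolUpTo (β ν : ℝ) (f : ℕ → ℝ → ℝ) (N : ℕ) (T : ℝ) (X : ℕ → ℝ → ℝ) : Prop :=
  ∀ n, n ≤ N → ∀ t ∈ Set.Icc (0 : ℝ) T,
    HasDerivWithinAt (X n) (rhs β ν (fun m => f m t) (fun m => X m t) n) (Set.Icc 0 T) t

end Pool.Agent.N167.DY
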