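import Pool.Agent.N167.DY.Region
import Pool.Agent.N134.DY.Clamped
import Pool.Agent.N136.DY.Boot
import Pool.Agent.N861.DY.Psi
import Pool.Agent.N891.DYLimit
import Pool.Agent.N455.DY.Uniq

namespace Pool.Agent.N167.DY

open Set

/-- The explicit bounds obtained by bootstrapping from `A`. -/
noncomputable def bd (β ν : ℝ) (A x F : ℕ → ℝ) : ℕ → ℝ
  | 0 => A 0
  | n + 1 => min (A (n + 1))
      (max (x (n + 1)) ((F (n + 1) + kk β n * bd β ν A x F n ^ 2) / (ν * 4 ^ (n + 1))))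

theorem bd_nonneg {β ν : ℝ} {A x F : ℕ → ℝ} (hA : ∀ n, 0 ≤ A n) (hx : ∀ n, 0 ≤ x n) (n : ℕ) :
    0 ≤ bd β ν A x F n := by
  cases n with
  | zero => exact hA 0
  | succ n => exact le_min (hA _) (le_trans (hx _) (le_max_left _ _))

theorem bd_le {β ν : ℝ} {A x F : ℕ → ℝ} (n : ℕ) : bd β ν A x F n ≤ A n := by
  cases n with
  | zero => exact le_rfl
  | succ n => exact min_le_left _ _

theorem bd_succ {β ν : ℝ} {A x F : ℕ → ℝ} (n : ℕ) : bd β ν A x F (n + 1) ≤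
    max (x (n + 1)) ((F (n + 1) + kk β n * bd β ν A x F n ^ 2) / (ν * 4 ^ (n + 1))) :=
  min_le_right _ _

/-- Conclusion of the main theorem. -/
def Concl (β ν : ℝ) (f : ℕ → ℝ → ℝ) (x : ℕ → ℝ) : Prop :=
  ∃ X : ℕ → ℝ → ℝ, IsSol β ν f x X ∧
    (∃ a : ℕ → ℝ, Rapid a ∧ ∀ n, ∀ t, 0 ≤ t → 0 ≤ X n t ∧ X n t ≤ a n) ∧
    ∀ Z : ℕ → ℝ → ℝ, IsSol β ν f x Z → ∀ n, ∀ t, 0 ≤ t → Z n t = X n t

theorem main_of {β ν K R₀ α b q c ε m₀ θ : ℝ} {A κ μ r x F : ℕ → ℝ} {f : ℕ → ℝ → ℝ}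
    (hReg : Reg K R₀ α b q c ε) (h : Amp β ν K R₀ α c ε A κ μ r) (hν : 0 < ν)
    (hN : ∃ N₀, ∀ n, N₀ ≤ n → α ≤ c * μ n)
    (hm0 : 0 ≤ m₀) (hm1 : m₀ ≤ 1 - q) (hm2 : α * m₀ ^ 2 ≤ b)
    (hx : ∀ n, 0 ≤ x n) (hxA : ∀ n, x n ≤ m₀ * A n) (hF : ∀ n, F n ≤ ε / 16 * (ν * 4 ^ n) * A n)
    (hθ : θ < 1) (hθA : ∃ N₀, ∀ n, N₀ ≤ n → (2 : ℝ) ^ (β - 2) * kk β n * A n ≤ θ * (ν * 4 ^ (n + 1)))
    (hxR : Rapid x) (hFR : Rapid F) (hfc : ∀ n, ContinuousOn (f n) (Ici 0))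
    (hf : ∀ n, ∀ t, 0 ≤ t → 0 ≤ f n t ∧ f n t ≤ F n) :
    Concl β ν f x := by
  obtain ⟨N₁, hN₁⟩ := hN
  obtain ⟨N₂, hN₂⟩ := hθA
  have hA0 : ∀ n, 0 ≤ A n := fun n => (h.A_pos n).le
  have hF0 : ∀ n, 0 ≤ F n := fun n => le_trans (hf n 0 le_rfl).1 (hf n 0 le_rfl).2
  set a := bd β ν A x F with ha
  have ha0 : ∀ n, 0 ≤ a n := bd_nonneg hA0 hx
  have haR : Rapid a := N136.DY.boot β ν θ a A x F N₂ hν hθ ha0 (fun n => bd_le n) hx hF0 hxR hFR
    (fun n => bd_succ n) hN₂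
  -- truncated solutions
  have hgal : ∀ N, max N₁ 1 ≤ N → ∃ X : ℕ → ℝ → ℝ,
      (∀ n, n ≤ N → X n 0 = x n) ∧ SolUpTo β ν f N N X ∧
      (∀ n, N < n → ∀ t ∈ Icc (0 : ℝ) N, X n t = 0) ∧
      (∀ n, ∀ t ∈ Icc (0 : ℝ) N, 0 ≤ X n t ∧ X n t ≤ a n) := by
    intro N hNN
    have hN1 : N₁ ≤ N := le_trans (le_max_left _ _) hNN
    have hN0 : 1 ≤ N := le_trans (le_max_right _ _) hNN
    have hTpos : (0:ℝ) < N := by exact_mod_cast hN0
    obtain ⟨X, hX0, hXi, hXd⟩ := N134.DY.s_clamped β ν f x A N N hTpos hA0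
      (fun n => (hfc n).mono (fun t ht => ht.1))
    have hreg := region hReg h hν hTpos.le (hN₁ N hN1) hm0 hm1 hm2
      (fun n _ => ⟨hx n, hxA n⟩)
      (fun n _ t ht => ⟨(hf n t ht.1).1, le_trans (hf n t ht.1).2 (hF n)⟩) hX0 hXi hXd
    have hcl : ∀ n, ∀ t ∈ Icc (0 : ℝ) N, clamp (A n) (X n t) = X n t := by
      intro n t ht
      unfold clamp
      rcases le_or_gt n N with hn | hn
      · have := hreg n hn t ht
        rw [min_eq_left this.2, max_eq_right this.1]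
      · rw [hX0 n hn t, min_eq_left (hA0 n), max_eq_right le_rfl]
    have hsol : SolUpTo β ν f N N X := by
      intro n hn t ht
      have := hXd n hn t ht
      have e : (fun m => clamp (A m) (X m t)) = fun m => X m t := funext fun m => hcl m t ht
      rwa [e] at this
    refine ⟨X, hXi, hsol, fun n hn t _ => hX0 n hn t, ?_⟩
    have hnn : ∀ n, ∀ t ∈ Icc (0 : ℝ) N, 0 ≤ X n t := by
      intro n t ht
      rcases le_or_gt n N with hn | hn
      · exact (hreg n hn t ht).1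
      · rw [hX0 n hn t]
    intro n
    induction n with
    | zero => exact fun t ht => ⟨hnn 0 t ht, (hreg 0 (by omega) t ht).2⟩
    | succ n ih =>
      intro t ht
      refine ⟨hnn _ t ht, ?_⟩
      rcases le_or_gt (n + 1) N with hn | hn
      · have e : a (n + 1) = min (A (n + 1))
          (max (x (n + 1)) ((F (n + 1) + kk β n * a n ^ 2) / (ν * 4 ^ (n + 1)))) := rfl
        rw [e]
        refine le_min (hreg _ hn t ht).2 ?_
        refine N415.DY.t_scalar N _ (X (n + 1))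
          (fun s => rhs β ν (fun m => f m s) (fun m => X m s) (n + 1)) hTpos.le
          (fun s hs => hsol _ hn s hs) ?_ ?_ t ht
        · rw [hXi _ hn]; exact le_max_left _ _
        · intro s hs hlt
          have h1 : (F (n + 1) + kk β n * a n ^ 2) / (ν * 4 ^ (n + 1)) < X (n + 1) s :=
            lt_of_le_of_lt (le_max_right _ _) hlt
          have hν4 : 0 < ν * 4 ^ (n + 1) := by positivity
          rw [div_lt_iff₀ hν4] at h1
          have h2 : X n s ^ 2 ≤ a n ^ 2 := pow_le_pow_left₀ (ih s hs).1 (ih s hs).2 2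
          have h3 : kk β n * X n s ^ 2 ≤ kk β n * a n ^ 2 :=
            mul_le_mul_of_nonneg_left h2 (kk_pos β n).le
          have h4 : 0 ≤ kk β (n + 1) * X (n + 1) s * X (n + 1 + 1) s :=
            mul_nonneg (mul_nonneg (kk_pos β _).le (hnn _ s hs)) (hnn _ s hs)
          have h5 := (hf (n + 1) s hs.1).2
          simp only [rhs, inflow]
          linarith
      · rw [hX0 _ hn t]; exact ha0 _
  choose! X hXi hXs hXz hXb using hgal
  obtain ⟨Y, hY, hYb⟩ := N891.DYLimit.limit N861.DY.psi β ν f x a (max N₁ 1) X hν haR hfc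
    hXi hXs hXz hXb
  refine ⟨Y, hY, ⟨a, haR, hYb⟩, ?_⟩
  intro Z hZ
  exact N455.DY.unique N861.DY.psi β ν f x a F Y Z hν hx hxR hFR hfc hf haR hY hYb hZ

end Pool.Agent.N167.DY
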