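import Pool.Agent.N167.DY.Def

namespace Pool.Agent.N167.DY

/-- The polynomial inequalities on the boundary of the invariant region. -/
structure Reg (K R₀ α b q c ε : ℝ) : Prop where
  hK : 1 ≤ K
  hR₀ : 3 ≤ R₀
  hR₀4 : R₀ ≤ 4
  hb : 0 < b
  hq : 0 < q
  hq1 : q < 1
  hc : 0 < c
  hε : 0 < ε
  hα2 : α ≤ 3 / 2
  hεq : ε ≤ 1 - q
  hT : 1 ≤ K * (α - b)
  hT1 : α - b ≤ 1
  hKc : K * c + ε ≤ 1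
  hL : ∀ R μ y z ω V : ℝ, R₀ ≤ R → R ≤ 4 → 0 < μ → 0 ≤ y → y ≤ 1 → z = α * y ^ 2 - b - c * μ →
    0 ≤ z → 0 ≤ ω → ω ≤ 1 - q * (1 - z) → 0 ≤ V → V ≤ 1 → α * V ≤ y + b + c * μ →
    ε * μ ≤ R * (y ^ 2 - K * z * ω) - 4 * μ * z - 2 * α * y * (V - K * y * z - μ * y)
  hU : ∀ R μ y z ω v : ℝ, R₀ ≤ R → R ≤ 4 → 0 < μ → 0 ≤ y → y ≤ 1 → z = 1 - q * (1 - y) →
    0 ≤ v → v ≤ 1 → y ≤ 1 - q * (1 - v) → R * (α * z ^ 2 - b) - 4 * c * μ ≤ R * ω →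
    ε * μ ≤ q * (v ^ 2 - K * y * z - μ * y) - R * (y ^ 2 - K * z * ω) + 4 * μ * z

end Pool.Agent.N167.DY
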