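import Pool.Agent.N167.DY.Reg

namespace Pool.Agent.N167.DY

theorem reg_of {K R₀ α b q c ε : ℝ} (hK : 1 ≤ K) (hR₀ : 3 ≤ R₀) (hR₀4 : R₀ ≤ 4) (hb : 0 < b)
    (hq : 0 < q) (hq1 : q < 1) (hc : 0 < c) (hε : 0 < ε) (hα : 0 < α) (hα2 : α ≤ 3 / 2)
    (hεq : ε ≤ 1 - q)
    (hT : 1 ≤ K * (α - b)) (hT1 : α - b ≤ 1) (hKc : K * c + ε ≤ 1)
    (hmu : ε ≤ (4 * (1 - c * K) - q) * (1 - q)) (hmu0 : 0 ≤ 4 * (1 - c * K) - q)
    (P0 : ∀ z μ y : ℝ, 0 ≤ z → 0 < μ → 0 ≤ y → y ≤ 1 → α * y ^ 2 = z + b + c * μ →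
      0 ≤ y ^ 2 - K * z * (1 - q * (1 - z)))
    (P1 : ∀ z μ y : ℝ, 0 ≤ z → 0 < μ → 0 ≤ y → y ≤ 1 → α * y ^ 2 = z + b + c * μ →
      α ≤ y + b + c * μ →
      ε * μ ≤ R₀ * (y ^ 2 - K * z * (1 - q * (1 - z))) - 4 * μ * z - 2 * α * y
        + 2 * (z + b + c * μ) * (K * z + μ))
    (P2 : ∀ z μ y : ℝ, 0 ≤ z → 0 < μ → 0 ≤ y → y ≤ 1 → α * y ^ 2 = z + b + c * μ →
      y + b + c * μ ≤ α →
      ε * μ ≤ R₀ * (y ^ 2 - K * z * (1 - q * (1 - z))) - 4 * μ * z - 2 * y * (y + b + c * μ)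
        + 2 * (z + b + c * μ) * (K * z + μ))
    (G1 : ∀ x : ℝ, 0 ≤ x → x ≤ q → 0 ≤ (q - x) ^ 2 - q * (q * K * (1 - x) * (1 - q * x))
      - q * (R₀ * (1 - x) ^ 2) + q * (R₀ * K * (1 - q * x) * (α * (1 - q * x) ^ 2 - b)))
    (G1' : ∀ x : ℝ, 0 ≤ x → x ≤ q → 0 ≤ (q - x) ^ 2 - q * (q * K * (1 - x) * (1 - q * x))
      - q * (4 * (1 - x) ^ 2) + q * (4 * K * (1 - q * x) * (α * (1 - q * x) ^ 2 - b)))
    (G2 : ∀ x : ℝ, q ≤ x → x ≤ 1 → 0 ≤ - (q * K * (1 - x) * (1 - q * x))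
      - R₀ * (1 - x) ^ 2 + R₀ * K * (1 - q * x) * (α * (1 - q * x) ^ 2 - b))
    (G2' : ∀ x : ℝ, q ≤ x → x ≤ 1 → 0 ≤ - (q * K * (1 - x) * (1 - q * x))
      - 4 * (1 - x) ^ 2 + 4 * K * (1 - q * x) * (α * (1 - q * x) ^ 2 - b)) :
    Reg K R₀ α b q c ε where
  hK := hK
  hR₀ := hR₀
  hR₀4 := hR₀4
  hb := hb
  hq := hq
  hq1 := hq1
  hc := hc
  hε := hε
  hα2 := hα2
  hεq := hεq
  hT := hT
  hT1 := hT1
  hKc := hKc
  hL := by
    intro R μ y z ω V hR hR4 hμ hy hy1 hz hz0 hω hω1 hV hV1 hαV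
    have hy2 : α * y ^ 2 = z + b + c * μ := by rw [hz]; ring
    have hzω : z * ω ≤ z * (1 - q * (1 - z)) := mul_le_mul_of_nonneg_left hω1 hz0
    have hKzω : K * z * ω ≤ K * z * (1 - q * (1 - z)) := by
      have := mul_le_mul_of_nonneg_left hzω (by linarith : (0:ℝ) ≤ K)
      linarith
    have h0 := P0 z μ y hz0 hμ hy hy1 hy2
    have hD : 0 ≤ y ^ 2 - K * z * ω := by linarith
    have hRD : R₀ * (y ^ 2 - K * z * (1 - q * (1 - z))) ≤ R * (y ^ 2 - K * z * ω) := by
      calc R₀ * (y ^ 2 - K * z * (1 - q * (1 - z))) ≤ R₀ * (y ^ 2 - K * z * ω) :=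
            mul_le_mul_of_nonneg_left (by linarith) (by linarith)
        _ ≤ R * (y ^ 2 - K * z * ω) := mul_le_mul_of_nonneg_right hR hD
    have e : 2 * α * y * (V - K * y * z - μ * y) = 2 * y * (α * V) - 2 * (z + b + c * μ) * (K * z + μ) := by
      rw [← hy2]; ring
    rw [e]
    rcases le_total α (y + b + c * μ) with h | h
    · have h1 := P1 z μ y hz0 hμ hy hy1 hy2 h
      have h2 : 2 * y * (α * V) ≤ 2 * α * y := by
        have : y * α * V ≤ y * α * 1 := mul_le_mul_of_nonneg_left hV1 (by positivity)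
        linarith
      linarith
    · have h1 := P2 z μ y hz0 hμ hy hy1 hy2 h
      have h2 : 2 * y * (α * V) ≤ 2 * y * (y + b + c * μ) :=
        mul_le_mul_of_nonneg_left hαV (by linarith)
      linarith
  hU := by
    intro R μ y z ω v hR hR4 hμ hy hy1 hz hv hv1 hyv hωR
    have hz1 : 1 - q ≤ z := by rw [hz]; nlinarith
    have hz0 : 0 ≤ z := by linarith
    have hyz : y ≤ z := by rw [hz]; nlinarith
    have hμpart : ε * μ ≤ μ * (4 * z * (1 - c * K) - q * y) := by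
      have h1 : q * y ≤ q * z := mul_le_mul_of_nonneg_left hyz hq.le
      have h2 : (4 * (1 - c * K) - q) * (1 - q) ≤ (4 * (1 - c * K) - q) * z :=
        mul_le_mul_of_nonneg_left hz1 hmu0
      have h3 : ε ≤ 4 * z * (1 - c * K) - q * y := by nlinarith
      nlinarith
    have hω2 : K * z * (R * (α * z ^ 2 - b) - 4 * c * μ) ≤ K * z * (R * ω) :=
      mul_le_mul_of_nonneg_left hωR (by positivity)
    -- it suffices: G ≥ 0
    have hG : 0 ≤ q * v ^ 2 - q * K * y * z - R * y ^ 2 + R * K * z * (α * z ^ 2 - b) := by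
      set x := 1 - y with hx
      have hyx : y = 1 - x := by rw [hx]; ring
      have hzx : z = 1 - q * x := by rw [hz]
      have hx0 : 0 ≤ x := by linarith
      have hx1 : x ≤ 1 := by linarith
      -- combination of the end points
      have comb : ∀ g0 g4 g : ℝ, 0 ≤ g0 → 0 ≤ g4 →
          (4 - R₀) * g = (4 - R) * g0 + (R - R₀) * g4 → (R₀ = 4 → g = g4) → 0 ≤ g := by
        intro g0 g4 g h0 h4 he he4
        rcases eq_or_lt_of_le hR₀4 with h | h
        · rw [he4 h]; exact h4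
        · have : 0 ≤ (4 - R₀) * g := by
            rw [he]
            have := mul_nonneg (by linarith : (0:ℝ) ≤ 4 - R) h0
            have := mul_nonneg (by linarith : (0:ℝ) ≤ R - R₀) h4
            linarith
          exact (mul_nonneg_iff_of_pos_left (by linarith)).mp this
      rcases le_total x q with hxq | hxq
      · have hvx : (q - x) ^ 2 ≤ q ^ 2 * v ^ 2 := by
          have : q - x ≤ q * v := by linarith
          have h0 : 0 ≤ q - x := by linarith
          have h1 := pow_le_pow_left₀ h0 this 2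
          rwa [mul_pow] at h1
        have g0 := G1 x hx0 hxq
        have g4 := G1' x hx0 hxq
        have key : 0 ≤ (q - x) ^ 2 - q * (q * K * (1 - x) * (1 - q * x))
            - q * (R * (1 - x) ^ 2) + q * (R * K * (1 - q * x) * (α * (1 - q * x) ^ 2 - b)) := by
          apply comb _ _ _ g0 g4
          · ring
          · intro h
            have : R = 4 := by linarith
            rw [this]
        have : 0 ≤ q * (q * v ^ 2 - q * K * y * z - R * y ^ 2 + R * K * z * (α * z ^ 2 - b)) := by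
          rw [hyx, hzx]
          have e : q * (q * v ^ 2 - q * K * (1 - x) * (1 - q * x) - R * (1 - x) ^ 2 + R * K * (1 - q * x) * (α * (1 - q * x) ^ 2 - b)) = q ^ 2 * v ^ 2 - q * (q * K * (1 - x) * (1 - q * x))
            - q * (R * (1 - x) ^ 2) + q * (R * K * (1 - q * x) * (α * (1 - q * x) ^ 2 - b)) := by ring
          rw [e]
          linarith
        exact (mul_nonneg_iff_of_pos_left hq).mp this
      · have g0 := G2 x hxq hx1
        have g4 := G2' x hxq hx1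
        have key : 0 ≤ - (q * K * (1 - x) * (1 - q * x))
            - R * (1 - x) ^ 2 + R * K * (1 - q * x) * (α * (1 - q * x) ^ 2 - b) := by
          apply comb _ _ _ g0 g4
          · ring
          · intro h
            have : R = 4 := by linarith
            rw [this]
        have hv2 : 0 ≤ q * v ^ 2 := by positivity
        rw [hyx, hzx]
        linarith
    have e : q * (v ^ 2 - K * y * z - μ * y) - R * (y ^ 2 - K * z * ω) + 4 * μ * z
        = (q * v ^ 2 - q * K * y * z - R * y ^ 2) + K * z * (R * ω) - q * μ * y + 4 * μ * z := by ring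
    have e2 : (q * v ^ 2 - q * K * y * z - R * y ^ 2) + K * z * (R * (α * z ^ 2 - b) - 4 * c * μ)
        - q * μ * y + 4 * μ * z = (q * v ^ 2 - q * K * y * z - R * y ^ 2
        + R * K * z * (α * z ^ 2 - b)) + μ * (4 * z * (1 - c * K) - q * y) := by ring
    rw [e]
    linarith
end Pool.Agent.N167.DY
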