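import Pool.Agent.N167.DY.Amp
import Pool.Agent.N415.DY.Bar

namespace Pool.Agent.N167.DY

open Set

theorem reg_α_pos {K R₀ α b q c ε : ℝ} (h : Reg K R₀ α b q c ε) : 0 < α := by
  have h1 := h.hT
  have h2 := h.hK
  have hb := h.hb
  by_contra hneg
  push Not at hneg
  nlinarith

/-- Invariance of the region for the truncated system (with clamped nonlinearity). -/
theorem region {β ν K R₀ α b q c ε m₀ T : ℝ} {A κ μ r x : ℕ → ℝ} {f X : ℕ → ℝ → ℝ} {N : ℕ}
    (hReg : Reg K R₀ α b q c ε) (h : Amp β ν K R₀ α c ε A κ μ r) (hν : 0 < ν) (hT : 0 ≤ T)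
    (hN : α ≤ c * μ N) (hm0 : 0 ≤ m₀) (hm1 : m₀ ≤ 1 - q) (hm2 : α * m₀ ^ 2 ≤ b)
    (hx : ∀ n, n ≤ N → 0 ≤ x n ∧ x n ≤ m₀ * A n)
    (hf : ∀ n, n ≤ N → ∀ t ∈ Icc (0 : ℝ) T, 0 ≤ f n t ∧ f n t ≤ ε / 16 * (ν * 4 ^ n) * A n)
    (hX0 : ∀ n, N < n → ∀ t, X n t = 0) (hXi : ∀ n, n ≤ N → X n 0 = x n)
    (hXd : ∀ n, n ≤ N → ∀ t ∈ Icc (0 : ℝ) T,
      HasDerivWithinAt (X n)
        (rhs β ν (fun m => f m t) (fun m => clamp (A m) (X m t)) n) (Icc 0 T) t) :
    ∀ n, n ≤ N → ∀ t ∈ Icc (0 : ℝ) T, 0 ≤ X n t ∧ X n t ≤ A n := by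
  have hα := reg_α_pos hReg
  have hb := hReg.hb
  have hq := hReg.hq
  have hq1 := hReg.hq1
  have hc := hReg.hc
  have hε := hReg.hε
  -- positivity
  have hpos : ∀ n, ∀ t ∈ Icc (0 : ℝ) T, 0 ≤ X n t := by
    intro n t ht
    rcases le_or_gt n N with hn | hn
    · have := N415.DY.t_scalar T 0 (fun s => - X n s)
        (fun s => - rhs β ν (fun m => f m s) (fun m => clamp (A m) (X m s)) n) hT
        (fun s hs => (hXd n hn s hs).neg) (by simp only [hXi n hn]; linarith [(hx n hn).1])
        (by
          intro s hs hlt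
          have hXn : X n s < 0 := by linarith
          have hcl : clamp (A n) (X n s) = 0 := by
            unfold clamp
            apply max_eq_left
            exact le_trans (min_le_left _ _) hXn.le
          have hin : 0 ≤ inflow β (fun m => clamp (A m) (X m s)) n := by
            cases n with
            | zero => simp [inflow]
            | succ k =>
              simp only [inflow]
              exact mul_nonneg (kk_pos β k).le (sq_nonneg _)
          have hfn := (hf n hn s hs).1
          simp only [rhs, hcl, mul_zero, zero_mul, sub_zero]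
          linarith)
        t ht
      have h3 : - X n t ≤ 0 := this
      linarith
    · rw [hX0 n hn t]
  -- the functions
  set w : ℕ → ℝ → ℝ := fun n t => X n t / A n with hw
  set D : ℕ → ℝ → ℝ := fun n t =>
    if n ≤ N then rhs β ν (fun m => f m t) (fun m => clamp (A m) (X m t)) n / A n else 0 with hD
  have hwd : ∀ n, ∀ t ∈ Icc (0 : ℝ) T, HasDerivWithinAt (w n) (D n t) (Icc 0 T) t := by
    intro n t ht
    rcases le_or_gt n N with hn | hn
    · simp only [hD, hn, if_true]
      exact (hXd n hn t ht).div_const (A n)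
    · have hn' : ¬ n ≤ N := by omega
      simp only [hD, hn', if_false]
      have : w n = fun _ => 0 := by
        funext s
        simp only [hw, hX0 n hn s, zero_div]
      rw [this]
      exact hasDerivWithinAt_const _ _ _
  have hwnn : ∀ n, ∀ t ∈ Icc (0 : ℝ) T, 0 ≤ w n t := fun n t ht =>
    div_nonneg (hpos n t ht) (h.A_pos n).le
  have hwz : ∀ n, N < n → ∀ t, w n t = 0 := by
    intro n hn t
    simp only [hw, hX0 n hn t, zero_div]
  have hpd : ∀ n, ∀ t ∈ Icc (0 : ℝ) T,
      HasDerivWithinAt (fun s => prev (fun m => w m s) n) (prev (fun m => D m t) n) (Icc 0 T) t := by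
    intro n t ht
    cases n with
    | zero => simp only [prev]; exact hasDerivWithinAt_const _ _ _
    | succ m => simp only [prev]; exact hwd m t ht
  have hpnn : ∀ n, ∀ t ∈ Icc (0 : ℝ) T, 0 ≤ prev (fun m => w m t) n := by
    intro n t ht
    cases n with
    | zero => simp only [prev]; exact le_rfl
    | succ m => simp only [prev]; exact hwnn m t ht
  set φ : Fin (N + 1) × Fin 3 → ℝ → ℝ := fun i t =>
    if i.2 = 0 then 1 - w i.1 t
    else if i.2 = 1 then w (i.1 + 1) t - α * (w i.1 t) ^ 2 + (b + c * μ i.1)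
    else 1 - q * (1 - prev (fun m => w m t) i.1) - w i.1 t with hφ
  set φ' : Fin (N + 1) × Fin 3 → ℝ → ℝ := fun i t =>
    if i.2 = 0 then - D i.1 t
    else if i.2 = 1 then D (i.1 + 1) t - 2 * α * w i.1 t * D i.1 t
    else q * prev (fun m => D m t) i.1 - D i.1 t with hφ'
  have hφd : ∀ i, ∀ t ∈ Icc (0 : ℝ) T, HasDerivWithinAt (φ i) (φ' i t) (Icc 0 T) t := by
    intro ⟨n, j⟩ t ht
    simp only [hφ, hφ']
    fin_cases j
    · simp only [Fin.zero_eta, if_true]
      simpa using (hwd n t ht).const_sub 1
    · simp only [Fin.mk_one, one_ne_zero, if_false, if_true]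
      have h1 := ((hwd (n + 1) t ht).sub (((hwd n t ht).pow 2).const_mul α)).add_const (b + c * μ n)
      refine h1.congr_deriv ?_
      push_cast
      ring
    · have e0 : ((⟨2, by norm_num⟩ : Fin 3) = 0) = False := by simp [Fin.ext_iff]
      have e1 : ((⟨2, by norm_num⟩ : Fin 3) = 1) = False := by simp [Fin.ext_iff]
      simp only [Fin.reduceFinMk, Fin.reduceEq, if_false]
      have h1 := ((((hpd n t ht).const_sub 1).const_mul q).const_sub 1).sub (hwd n t ht)
      refine h1.congr_deriv ?_
      ring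
  have hφ0 : ∀ i, 0 ≤ φ i 0 := by
    intro ⟨n, j⟩
    have h00 : (0:ℝ) ∈ Icc (0:ℝ) T := ⟨le_rfl, hT⟩
    have hn : (n : ℕ) ≤ N := by omega
    have hwn : w n 0 ≤ m₀ := by
      simp only [hw, hXi n hn]
      rw [div_le_iff₀ (h.A_pos n)]
      exact (hx n hn).2
    have hwn0 := hwnn n 0 h00
    have hwn1 := hwnn (n + 1) 0 h00
    have hp := hpnn n 0 h00
    have hμn := h.μ_pos n
    simp only [hφ]
    fin_cases j
    · simp only [Fin.zero_eta, if_true]
      linarith
    · simp only [Fin.mk_one, one_ne_zero, if_false, if_true]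
      have h1 : w n 0 ^ 2 ≤ m₀ ^ 2 := pow_le_pow_left₀ hwn0 hwn 2
      have h2 : α * w n 0 ^ 2 ≤ α * m₀ ^ 2 := mul_le_mul_of_nonneg_left h1 hα.le
      have h3 : 0 ≤ c * μ n := by positivity
      linarith
    · simp only [Fin.reduceFinMk, Fin.reduceEq, if_false]
      have h1 : 0 ≤ q * prev (fun m => w m 0) n := mul_nonneg hq.le hp
      linarith
  have hbar := N415.DY.t_barrier (Fin (N + 1) × Fin 3) T φ φ' hT hφd hφ0 (by
    intro ⟨n, j⟩ t ht hall hzero
    have htI : t ∈ Icc (0:ℝ) T := ⟨ht.1, ht.2.le⟩
    have hw0 : ∀ m, 0 ≤ w m t := fun m => hwnn m t htI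
    have hp0 : ∀ m, 0 ≤ prev (fun m => w m t) m := fun m => hpnn m t htI
    have hw1 : ∀ m, w m t ≤ 1 := by
      intro m
      rcases le_or_gt m N with hm | hm
      · have := hall (⟨m, by omega⟩, 0)
        simp only [hφ, if_true] at this
        linarith
      · rw [hwz m hm t]; norm_num
    have hp1 : ∀ m, prev (fun m => w m t) m ≤ 1 := by
      intro m
      cases m with
      | zero => simp only [prev]; norm_num
      | succ k => simp only [prev]; exact hw1 k
    have hLo : ∀ m, m ≤ N → α * w m t ^ 2 - b - c * μ m ≤ w (m + 1) t := by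
      intro m hm
      have := hall (⟨m, by omega⟩, 1)
      simp only [hφ, one_ne_zero, if_false, if_true] at this
      linarith
    have hUp : ∀ m, m ≤ N → w m t ≤ 1 - q * (1 - prev (fun m => w m t) m) := by
      intro m hm
      have := hall (⟨m, by omega⟩, 2)
      simp only [hφ, Fin.reduceEq, if_false] at this
      linarith
    have hcl : ∀ m, clamp (A m) (X m t) = X m t := by
      intro m
      have h0 := hpos m t htI
      have h1 : X m t ≤ A m := by
        have := hw1 m
        simp only [hw] at this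
        rwa [div_le_one (h.A_pos m)] at this
      unfold clamp
      rw [min_eq_left h1, max_eq_right h0]
    have hDm : ∀ m, m ≤ N → D m t = f m t / A m + r m * (prev (fun m => w m t) m ^ 2
        - κ m * w m t * w (m + 1) t - μ m * w m t) := by
      intro m hm
      simp only [hD, hm, if_true]
      have e : (fun m => clamp (A m) (X m t)) = fun m => X m t := funext hcl
      rw [e]
      exact rhs_eq h (fun m => f m t) (fun m => X m t) m
    have hF0 : ∀ m, m ≤ N → 0 ≤ f m t / A m := fun m hm =>
      div_nonneg (hf m hm t htI).1 (h.A_pos m).le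
    have hF1 : ∀ m, m ≤ N → f m t / A m ≤ ε / 16 * μ m * r m := by
      intro m hm
      rw [div_le_iff₀ (h.A_pos m)]
      have := (hf m hm t htI).2
      rw [← h.hμ m] at this
      linarith
    have hn : (n : ℕ) ≤ N := by omega
    -- constraint αv² ≤ y + b + c μ
    have hv2 : ∀ m, m ≤ N → α * prev (fun m => w m t) m ^ 2 ≤ w m t + b + c * μ m := by
      intro m hm
      cases m with
      | zero =>
        simp only [prev]
        have h1 := hw0 0
        have h2 := mul_pos hc (h.μ_pos 0)
        nlinarith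
      | succ k =>
        simp only [prev]
        have h1 := hLo k (by omega)
        have h2 := mul_le_mul_of_nonneg_left (μ_mono h k) hc.le
        linarith
    fin_cases j
    · -- w n = 1
      simp only [hφ, Fin.zero_eta, if_true] at hzero
      simp only [hφ', Fin.zero_eta, if_true]
      have hy : w n t = 1 := by linarith
      have hL := hLo n hn
      rw [hy] at hL
      have key := alg_T hReg (F := f n t / A n) (v := prev (fun m => w m t) n)
        (ω := w (n + 1) t) (h.μ_pos n) (h.r_pos n) (h.hκ1 n) (hw0 _) (hw1 _)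
        (by linarith) (hp0 n) (hp1 n) (hF1 n hn)
      rw [hDm n hn, hy]
      linarith
    · -- lower constraint
      simp only [hφ, Fin.mk_one, one_ne_zero, if_false, if_true] at hzero
      simp only [hφ', Fin.mk_one, one_ne_zero, if_false, if_true]
      rcases Nat.lt_or_ge (n : ℕ) N with hnN | hnN
      · have hz : w (n + 1) t = α * w n t ^ 2 - b - c * μ n := by linarith
        have hω1 : w (n + 1 + 1) t ≤ 1 - q * (1 - w (n + 1) t) := by
          rcases le_or_gt ((n : ℕ) + 1 + 1) N with h2 | h2
          · have := hUp ((n : ℕ) + 1 + 1) h2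
            simpa only [prev] using this
          · rw [hwz _ h2 t]
            nlinarith [hw0 ((n : ℕ) + 1)]
        have key := alg_L hReg (F := f n t / A n) (F₁ := f (n + 1) t / A (n + 1))
          (v := prev (fun m => w m t) n) (y := w n t) (z := w (n + 1) t) (ω := w (n + 1 + 1) t)
          (h.μ_pos n) (h.r_pos n) (h.hR n) (h.hR4 n) (μ_succ h n) (h.hκ1 n) (h.hκK (n + 1))
          (hw0 _) (hw1 _) hz (hw0 _) (hw1 _) (hw0 _) hω1 (hp0 n) (hp1 n) (hv2 n hn)
          (hF1 n hn) (hF0 (n + 1) (by omega))
        rw [hDm n hn, hDm ((n : ℕ) + 1) (by omega)]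
        have e : prev (fun m => w m t) ((n : ℕ) + 1) = w n t := rfl
        rw [e]
        exact key
      · exfalso
        have hnN' : (n : ℕ) = N := by omega
        have h1 := hwz ((n : ℕ) + 1) (by omega) t
        rw [h1] at hzero
        have h2 : w n t ^ 2 ≤ 1 := by nlinarith [hw0 n, hw1 n]
        have h3 : α * w n t ^ 2 ≤ α * 1 := mul_le_mul_of_nonneg_left h2 hα.le
        have h4 : c * μ n = c * μ N := by rw [hnN']
        linarith
    · -- upper constraint
      simp only [hφ, Fin.reduceFinMk, Fin.reduceEq, if_false] at hzero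
      simp only [hφ', Fin.reduceFinMk, Fin.reduceEq, if_false]
      obtain ⟨n, hnlt⟩ := n
      simp only at hzero hn ⊢
      cases n with
      | zero =>
        simp only [prev] at hzero ⊢
        have hy : w 0 t = 1 - q := by linarith
        have key := alg_U0 hReg (F := f 0 t / A 0) (ω := w 1 t) (h.μ_pos 0) (h.r_pos 0)
          (h.κ_nonneg 0) (hw0 1) (hF1 0 hn)
        rw [hDm 0 hn, hy]
        simp only [prev]
        linarith
      | succ m =>
        simp only [prev] at hzero ⊢
        have hz : w (m + 1) t = 1 - q * (1 - w m t) := by linarith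
        have key := alg_U hReg (F := f m t / A m) (F₁ := f (m + 1) t / A (m + 1))
          (v := prev (fun m => w m t) m) (y := w m t) (z := w (m + 1) t) (ω := w (m + 1 + 1) t)
          (h.μ_pos m) (h.r_pos m) (h.hR m) (h.hR4 m) (μ_succ h m) (h.hκK m) (h.hκ2 m)
          (hw0 _) (hw1 _) hz (hw0 _) (hw1 _) (by linarith [hLo (m + 1) hn])
          (hp0 m) (hp1 m) (hUp m (by omega)) (hF0 m (by omega)) (hF1 (m + 1) hn)
        rw [hDm m (by omega), hDm (m + 1) hn]
        exact key)
  intro n hn t ht
  refine ⟨hpos n t ht, ?_⟩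
  have := hbar (⟨n, by omega⟩, 0) t ht
  simp only [hφ, if_true] at this
  have h1 : w n t ≤ 1 := by linarith
  simp only [hw] at h1
  rwa [div_le_one (h.A_pos n)] at h1

end Pool.Agent.N167.DY
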