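import Pool.Agent.N167.DY.Final
import Pool.Agent.N167.DY.Boxes

namespace Pool.Agent.N167.DY

open Set Filter

theorem kk_eq (β : ℝ) (n : ℕ) : kk β n = ((2 : ℝ) ^ β) ^ n := by
  unfold kk
  rw [Real.rpow_mul (by norm_num), Real.rpow_natCast]

theorem rapid_bound {x : ℕ → ℝ} (hx : Rapid x) {ρ : ℝ} (hρ : 0 < ρ) :
    ∃ C, 0 ≤ C ∧ ∀ n, x n ≤ C * ρ ^ n := by
  obtain ⟨C, hC⟩ := hx (- Real.logb 2 ρ)
  refine ⟨max C 0, le_max_right _ _, fun n => ?_⟩
  have h1 := hC n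
  have h2 : (2:ℝ) ^ (- Real.logb 2 ρ * n) = (ρ ^ n)⁻¹ := by
    rw [Real.rpow_mul (by norm_num), Real.rpow_neg (by norm_num),
      Real.rpow_logb (by norm_num) (by norm_num) hρ, Real.rpow_natCast, inv_pow]
  rw [h2] at h1
  have h3 : 0 < ρ ^ n := pow_pos hρ n
  rw [inv_mul_le_iff₀ h3] at h1
  calc x n ≤ ρ ^ n * C := h1
    _ ≤ max C 0 * ρ ^ n := by
      rw [mul_comm]
      exact mul_le_mul_of_nonneg_right (le_max_left _ _) h3.le

theorem m0_spec {K R₀ α b q c ε : ℝ} (h : Reg K R₀ α b q c ε) :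
    0 < min (1 - q) (b / 2) ∧ min (1 - q) (b / 2) ≤ 1 - q ∧ α * (min (1 - q) (b / 2)) ^ 2 ≤ b := by
  have hq1 := h.hq1
  have hb := h.hb
  have hα := reg_α_pos h
  have hα2 := h.hα2
  have hm : 0 < min (1 - q) (b / 2) := lt_min (by linarith) (by linarith)
  refine ⟨hm, min_le_left _ _, ?_⟩
  have hbα : b < α := by
    have h1 := h.hT
    have h2 := h.hK
    by_contra hneg
    push Not at hneg
    nlinarith
  have h1 : (min (1 - q) (b / 2)) ^ 2 ≤ (b / 2) ^ 2 := pow_le_pow_left₀ hm.le (min_le_right _ _) 2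
  have h2 : α * (min (1 - q) (b / 2)) ^ 2 ≤ α * (b / 2) ^ 2 := mul_le_mul_of_nonneg_left h1 hα.le
  have h3 : α * b ≤ 9 / 4 := by nlinarith
  have h4 : α * (b / 2) ^ 2 = α * b * b / 4 := by ring
  nlinarith

theorem sub {β ν : ℝ} (hβ2 : 2 ≤ β) (hβ3 : β < 3) (hν : 0 < ν) {x F : ℕ → ℝ} {f : ℕ → ℝ → ℝ}
    (hx : ∀ n, 0 ≤ x n) (hxR : Rapid x) (hFR : Rapid F) (hfc : ∀ n, ContinuousOn (f n) (Ici 0))
    (hf : ∀ n, ∀ t, 0 ≤ t → 0 ≤ f n t ∧ f n t ≤ F n) : Concl β ν f x := by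
  set B : ℝ := (2:ℝ) ^ β with hB
  have hBpos : 0 < B := Real.rpow_pos_of_pos (by norm_num) _
  set κ₀ : ℝ := (2:ℝ) ^ (6 - 2 * β) with hκ₀
  have hκ₀pos : 0 < κ₀ := Real.rpow_pos_of_pos (by norm_num) _
  have hκ1 : 1 < κ₀ := Real.one_lt_rpow (by norm_num) (by linarith)
  have hκ4 : κ₀ ≤ 4 := by
    have : κ₀ ≤ (2:ℝ) ^ (2:ℝ) := Real.rpow_le_rpow_of_exponent_le (by norm_num) (by linarith)
    have e : (2:ℝ) ^ (2:ℝ) = 4 := by norm_num
    rwa [e] at this
  have hκB : κ₀ * B ^ 2 = 64 := by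
    rw [hκ₀, hB, ← Real.rpow_natCast ((2:ℝ) ^ β) 2, ← Real.rpow_mul (by norm_num),
      ← Real.rpow_add (by norm_num)]
    have : 6 - 2 * β + β * ((2:ℕ):ℝ) = ((6:ℕ):ℝ) := by push_cast; ring
    rw [this, Real.rpow_natCast]
    norm_num
  obtain ⟨K, R₀, α, b, q, c, ε, hReg, hKκ, hκR⟩ := reg_exists κ₀ hκ1 hκ4
  have hK := hReg.hK
  have hKpos : 0 < K := by linarith
  set s : ℝ := (K / κ₀) ^ ((1:ℝ) / 3) with hs
  have hspos : 0 < s := Real.rpow_pos_of_pos (by positivity) _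
  have hs3 : s ^ 3 = K / κ₀ := by
    rw [hs, ← Real.rpow_natCast, ← Real.rpow_mul (by positivity)]
    norm_num
  have hs1 : s < 1 := by
    apply Real.rpow_lt_one (by positivity) _ (by norm_num)
    rw [div_lt_one hκ₀pos]; exact hKκ
  have hR₀s : R₀ ≤ 4 * s := by
    have h1 : R₀ ^ 3 ≤ (4 * s) ^ 3 := by
      rw [mul_pow, hs3]
      have : (4:ℝ) ^ 3 * (K / κ₀) = 64 * K / κ₀ := by ring
      rw [this, le_div_iff₀ hκ₀pos]
      linarith
    exact le_of_pow_le_pow_left₀ (by norm_num) (by positivity) h1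
  set σ : ℝ := 4 / B * s with hσ
  have hσpos : 0 < σ := by positivity
  have hBσ : B * σ = 4 * s := by rw [hσ]; field_simp
  have hBσ3 : B * σ ^ 3 = K := by
    have h1 : B * σ ^ 3 = 64 / B ^ 2 * s ^ 3 := by rw [hσ]; field_simp; norm_num
    rw [h1, hs3, ← hκB]
    field_simp
  -- constants
  obtain ⟨Cx, hCx0, hCx⟩ := rapid_bound hxR hσpos
  obtain ⟨CF, hCF0, hCF⟩ := rapid_bound hFR hσpos
  obtain ⟨hm0, hm1, hm2⟩ := m0_spec hReg
  set m₀ := min (1 - q) (b / 2) with hm₀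
  have hε := hReg.hε
  set A : ℝ := Cx / m₀ + 16 * CF / (ε * ν) + 1 with hA
  have hApos : 0 < A := by positivity
  have hAx : Cx ≤ m₀ * A := by
    have h1 : m₀ * A = Cx + m₀ * (16 * CF / (ε * ν) + 1) := by rw [hA]; field_simp; ring
    have h2 : 0 ≤ m₀ * (16 * CF / (ε * ν) + 1) := by positivity
    linarith
  have hAF : CF ≤ ε / 16 * ν * A := by
    have h1 : ε / 16 * ν * A = CF + ε / 16 * ν * (Cx / m₀ + 1) := by rw [hA]; field_simp; ring
    have h2 : 0 ≤ ε / 16 * ν * (Cx / m₀ + 1) := by positivity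
    linarith
  set a : ℝ := A / (B * σ ^ 2) with ha
  have hapos : 0 < a := by positivity
  have hAmp : Amp β ν K R₀ α c ε (fun n => A * σ ^ n) (fun _ => K)
      (fun n => ν / a * (1 / s) ^ n) (fun n => a * (4 * s) ^ n) := by
    have hμpos : ∀ n : ℕ, 0 < ν / a * (1 / s) ^ n := fun n => by positivity
    constructor
    · intro n; positivity
    · intro n; positivity
    · exact hμpos
    · intro n; exact hKpos.le
    · intro n
      rw [kk_eq, ← hB, ← hBσ, ha]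
      field_simp
      ring
    · intro n
      rw [kk_eq, ← hB, ← hBσ, ha]
      have : K * (A / (B * σ ^ 2) * (B * σ) ^ n) = K * A / (B * σ ^ 2) * (B * σ) ^ n := by ring
      rw [this, ← hBσ3]
      field_simp
      ring
    · intro n
      rw [mul_pow, one_div, inv_pow]
      field_simp
    · intro n
      rw [pow_succ]
      have : 0 < a * (4 * s) ^ n := by positivity
      nlinarith
    · intro n
      rw [pow_succ]
      have : 0 < a * (4 * s) ^ n := by positivity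
      nlinarith
    · intro n; exact le_rfl
    · intro n
      have := mul_pos hε (hμpos n)
      linarith
    · intro n
      have := mul_pos hε (hμpos n)
      linarith
  refine main_of (θ := 1 / 2) (F := F) hReg hAmp hν ?_ hm0.le hm1 hm2 hx ?_ ?_ (by norm_num) ?_
    hxR hFR hfc hf
  · -- α ≤ c μ eventually
    have h1 : 1 < 1 / s := by rw [lt_div_iff₀ hspos]; linarith
    have h2 : Tendsto (fun n : ℕ => (1 / s) ^ n) atTop atTop := tendsto_pow_atTop_atTop_of_one_lt h1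
    obtain ⟨N₀, hN₀⟩ := eventually_atTop.1 (h2.eventually_ge_atTop (α / (c * (ν / a))))
    refine ⟨N₀, fun n hn => ?_⟩
    have h3 := hN₀ n hn
    have hc := hReg.hc
    have h4 : 0 < c * (ν / a) := by positivity
    rw [div_le_iff₀ h4] at h3
    linarith
  · intro n
    calc x n ≤ Cx * σ ^ n := hCx n
      _ ≤ m₀ * A * σ ^ n := mul_le_mul_of_nonneg_right hAx (by positivity)
      _ = m₀ * (A * σ ^ n) := by ring
  · intro n
    calc F n ≤ CF * σ ^ n := hCF n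
      _ ≤ ε / 16 * ν * A * σ ^ n := mul_le_mul_of_nonneg_right hAF (by positivity)
      _ ≤ ε / 16 * (ν * 4 ^ n) * (A * σ ^ n) := by
        have h1 : (1:ℝ) ≤ 4 ^ n := one_le_pow₀ (by norm_num)
        have h2 : 0 ≤ ε / 16 * ν * A * σ ^ n := by positivity
        have h3 : ε / 16 * (ν * 4 ^ n) * (A * σ ^ n) = ε / 16 * ν * A * σ ^ n * 4 ^ n := by ring
        rw [h3]
        nlinarith
  · have h2 : Tendsto (fun n : ℕ => s ^ n) atTop (nhds 0) :=
      tendsto_pow_atTop_nhds_zero_of_lt_one hspos.le hs1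
    have h5 : 0 < 8 * ν / (B * A) := by positivity
    obtain ⟨N₀, hN₀⟩ := eventually_atTop.1 (h2.eventually_le_const h5)
    refine ⟨N₀, fun n hn => ?_⟩
    have h3 := hN₀ n hn
    have h4 : (2:ℝ) ^ (β - 2) = B / 4 := by
      rw [hB, Real.rpow_sub (by norm_num)]
      norm_num
    rw [h4, kk_eq, ← hB]
    have h6 : B / 4 * B ^ n * (A * σ ^ n) = B * A / 4 * (4 ^ n * s ^ n) := by
      have : B ^ n * σ ^ n = 4 ^ n * s ^ n := by rw [← mul_pow, ← mul_pow, hBσ]
      calc B / 4 * B ^ n * (A * σ ^ n) = B * A / 4 * (B ^ n * σ ^ n) := by ring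
        _ = _ := by rw [this]
    rw [h6]
    have h7 : B * A * s ^ n ≤ 8 * ν := by
      rw [le_div_iff₀ (by positivity)] at h3
      linarith
    have h8 : (0:ℝ) < 4 ^ n := by positivity
    have h9 : 1 / 2 * (ν * 4 ^ (n + 1)) = 8 * ν / 4 * 4 ^ n := by rw [pow_succ]; ring
    rw [h9]
    have h10 : B * A / 4 * (4 ^ n * s ^ n) = B * A * s ^ n / 4 * 4 ^ n := by ring
    rw [h10]
    apply mul_le_mul_of_nonneg_right _ h8.le
    linarith

end Pool.Agent.N167.DY
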